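import Mathlib

/-!
Two families of alternating binomial sums.
-/

open Finset

namespace Pool.Agent.Helper9.SC

/-- `∑_{q < n} (-1)^q C(M,q) / (n - q)` -/
def aa (M n : ℕ) : ℚ := ∑ q ∈ range n, (-1) ^ q * (M.choose q : ℚ) / ((n : ℚ) - q)

/-- harmonic numbers -/
def hh (m : ℕ) : ℚ := ∑ i ∈ range m, 1 / ((i : ℚ) + 1)

lemma hh_succ (m : ℕ) : hh (m + 1) = hh m + 1 / ((m : ℚ) + 1) := by
  unfold hh; rw [Finset.sum_range_succ]

lemma aa_rec (M n : ℕ) : aa (M + 1) (n + 1) = aa M (n + 1) - aa M n := by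
  unfold aa
  rw [Finset.sum_range_succ', Finset.sum_range_succ' (fun q => (-1) ^ q * (M.choose q : ℚ) / (((n + 1 : ℕ) : ℚ) - q)),
    Nat.choose_zero_right, Nat.choose_zero_right]
  have h : ∑ k ∈ range n, (-1 : ℚ) ^ (k + 1) * ((M + 1).choose (k + 1) : ℚ) / (((n + 1 : ℕ) : ℚ) - ((k + 1 : ℕ) : ℚ)) =
      ∑ k ∈ range n, (-1 : ℚ) ^ (k + 1) * (M.choose (k + 1) : ℚ) / (((n + 1 : ℕ) : ℚ) - ((k + 1 : ℕ) : ℚ)) -
      ∑ q ∈ range n, (-1) ^ q * (M.choose q : ℚ) / ((n : ℚ) - q) := by
    rw [← Finset.sum_sub_distrib]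
    apply Finset.sum_congr rfl
    intro k _
    rw [Nat.choose_succ_succ]
    push_cast
    have : ((n : ℚ) + 1 - (k + 1)) = n - k := by ring
    rw [this, pow_succ]
    ring
  rw [h]; ring

lemma aa_zero_right (M : ℕ) : aa M 0 = 0 := by unfold aa; simp

lemma aa_zero_left (n : ℕ) (hn : 1 ≤ n) : aa 0 n = 1 / n := by
  unfold aa
  obtain ⟨m, rfl⟩ : ∃ m, n = m + 1 := ⟨n - 1, by omega⟩
  rw [Finset.sum_range_succ']
  have : ∑ k ∈ range m, (-1 : ℚ) ^ (k + 1) * ((0 : ℕ).choose (k + 1) : ℚ) / (((m + 1 : ℕ) : ℚ) - ((k + 1 : ℕ) : ℚ)) = 0 := by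
    apply Finset.sum_eq_zero
    intro k _
    rw [Nat.choose_zero_succ]; simp
  rw [this]; simp

lemma fsucc (n : ℕ) : ((n + 1).factorial : ℚ) = (n + 1) * n.factorial := by
  rw [Nat.factorial_succ]; push_cast; ring

lemma aa_big (M : ℕ) : ∀ n, M < n → aa M n = (-1) ^ M * M.factorial * (n - 1 - M).factorial / n.factorial := by
  induction M with
  | zero =>
    intro n hn
    rw [aa_zero_left n (by omega)]
    obtain ⟨m, rfl⟩ : ∃ m, n = m + 1 := ⟨n - 1, by omega⟩
    rw [show m + 1 - 1 - 0 = m by omega, fsucc]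
    have : (m.factorial : ℚ) ≠ 0 := by exact_mod_cast m.factorial_ne_zero
    have h1 : (m + 1 : ℚ) ≠ 0 := by positivity
    push_cast
    field_simp
    simp
  | succ M ih =>
    intro n hn
    obtain ⟨m, rfl⟩ : ∃ m, n = m + 1 := ⟨n - 1, by omega⟩
    rw [aa_rec, ih (m + 1) (by omega), ih m (by omega)]
    obtain ⟨d, rfl⟩ : ∃ d, m = M + 1 + d := ⟨m - (M + 1), by omega⟩
    rw [show M + 1 + d + 1 - 1 - M = d + 1 by omega, show M + 1 + d - 1 - M = d by omega,
      show M + 1 + d + 1 - 1 - (M + 1) = d by omega, fsucc d, fsucc (M + 1 + d), fsucc M]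
    have : ((M + 1 + d).factorial : ℚ) ≠ 0 := by exact_mod_cast (M + 1 + d).factorial_ne_zero
    have h1 : (((M + 1 + d : ℕ) : ℚ) + 1) ≠ 0 := by positivity
    push_cast at h1 ⊢
    field_simp
    rw [pow_succ]
    ring

lemma aa_small (M : ℕ) : ∀ n, 1 ≤ n → n ≤ M →
    aa M n = (-1) ^ (n + 1) * (M.choose n : ℚ) * (hh M - hh (M - n)) := by
  induction M with
  | zero => intro n h1 h2; omega
  | succ M ih =>
    intro n h1 h2
    obtain ⟨m, rfl⟩ : ∃ m, n = m + 1 := ⟨n - 1, by omega⟩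
    rw [aa_rec]
    by_cases hm : m = M
    · subst hm
      rw [aa_big m (m + 1) (by omega), show m + 1 - 1 - m = 0 by omega, Nat.choose_self,
        show m + 1 - (m + 1) = 0 by omega, fsucc]
      have hm0 : (m.factorial : ℚ) ≠ 0 := by exact_mod_cast m.factorial_ne_zero
      have h5 : (m + 1 : ℚ) ≠ 0 := by positivity
      have h0 : hh 0 = 0 := by unfold hh; simp
      rw [h0, hh_succ]
      rcases Nat.eq_zero_or_pos m with h | h
      · subst h
        rw [aa_zero_right]; simp [h0]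
      · rw [ih m h le_rfl, Nat.choose_self, Nat.sub_self, h0]
        rw [Nat.factorial_zero]
        push_cast
        field_simp
        rw [pow_succ, pow_succ]
        ring
    · have hmM : m + 1 ≤ M := by omega
      rw [ih (m + 1) (by omega) hmM, Nat.choose_succ_succ]
      obtain ⟨d, rfl⟩ : ∃ d, M = m + 1 + d := ⟨M - (m + 1), by omega⟩
      rw [show m + 1 + d + 1 - (m + 1) = d + 1 by omega, show m + 1 + d - (m + 1) = d by omega,
        hh_succ (m + 1 + d), hh_succ d]
      have hc : ((m + 1 + d).choose (m + 1) : ℚ) * (m + 1) = ((m + 1 + d).choose m : ℚ) * (d + 1) := by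
        have := Nat.choose_succ_right_eq (m + 1 + d) m
        rw [show m + 1 + d - m = d + 1 by omega] at this
        exact_mod_cast this
      have h5 : (m + 1 : ℚ) ≠ 0 := by positivity
      have h6 : (d + 1 : ℚ) ≠ 0 := by positivity
      have h7 : (((m + 1 + d : ℕ) : ℚ) + 1) ≠ 0 := by positivity
      have hc1 : ((m + 1 + d).choose (m + 1) : ℚ) = ((m + 1 + d).choose m : ℚ) * (d + 1) / (m + 1) := by
        rw [eq_div_iff h5, hc]
      rcases Nat.eq_zero_or_pos m with h | h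
      · subst h
        rw [aa_zero_right]
        push_cast at h7 ⊢
        simp only [Nat.choose_zero_right, Nat.choose_one_right, zero_add] at hc ⊢
        push_cast
        have e1 : hh (1 + d) = hh d + 1 / ((d : ℚ) + 1) := by rw [add_comm, hh_succ]
        rw [e1]
        field_simp
        ring
      · rw [ih m h (by omega), show m + 1 + d - m = d + 1 by omega, hh_succ d]
        push_cast at h7 ⊢
        rw [hc1]
        rw [pow_succ]
        field_simp
        ring

/-- alternating harmonic sums -/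
lemma alt_harm (n : ℕ) : ∑ s ∈ range (2 * n), (-1 : ℚ) ^ s / ((s : ℚ) + 1) = hh (2 * n) - hh n := by
  induction n with
  | zero => simp [hh]
  | succ n ih =>
    rw [show 2 * (n + 1) = 2 * n + 1 + 1 by ring, Finset.sum_range_succ, Finset.sum_range_succ, ih,
      hh_succ, hh_succ, hh_succ]
    have h1 : (-1 : ℚ) ^ (2 * n) = 1 := by rw [pow_mul]; norm_num
    have h2 : (-1 : ℚ) ^ (2 * n + 1) = -1 := by rw [pow_succ, h1]; norm_num
    rw [h1, h2]
    have h3 : (n + 1 : ℚ) ≠ 0 := by positivity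
    have h4 : (2 * (n : ℚ) + 1) ≠ 0 := by positivity
    have h5 : (2 * (n : ℚ) + 1 + 1) ≠ 0 := by positivity
    push_cast
    field_simp
    ring

end Pool.Agent.Helper9.SC
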