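import Mathlib

/-!
Closed forms for the deformed sums `∑ T v k`.
-/

open Finset

namespace Pool.Agent.Helper9.SC

/-- the deformed summand -/
def T (v : ℚ) : ℕ → ℚ
  | 0 => 1
  | (k + 1) => T v k * ((4 * k + 1 - v) * (4 * k + 3 - v) / (6 * (k + 1) * (3 * k + 3 - v)))

lemma T_zero (v : ℚ) : T v 0 = 1 := rfl

lemma T_succ (v : ℚ) (k : ℕ) : T v (k + 1) =
    T v k * ((4 * k + 1 - v) * (4 * k + 3 - v) / (6 * (k + 1) * (3 * k + 3 - v))) := rfl

lemma T_succ_mul (v : ℚ) (k : ℕ) (h : (3 * k + 3 - v : ℚ) ≠ 0) :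
    T v (k + 1) * (6 * (k + 1) * (3 * k + 3 - v)) = T v k * ((4 * k + 1 - v) * (4 * k + 3 - v)) := by
  have h3 : (k + 1 : ℚ) ≠ 0 := by positivity
  rw [T_succ, mul_assoc, div_mul_cancel₀]
  exact mul_ne_zero (mul_ne_zero (by norm_num) h3) h

lemma T_eq_zero_of {v k : ℕ} (hv : v % 2 = 1) (hk : v / 4 < k) : T v k = 0 := by
  induction k with
  | zero => omega
  | succ k ih =>
    rw [T_succ]
    by_cases h : v / 4 < k
    · rw [ih h, zero_mul]
    · have h1 : v / 4 = k := by omega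
      have h2 : v = 4 * k + 1 ∨ v = 4 * k + 3 := by omega
      rcases h2 with h2 | h2
      · rw [h2]; push_cast; ring
      · rw [h2]; push_cast; ring

lemma ne_aux {v : ℚ} (hv : 0 < v) {k : ℕ} (h : ∀ j : ℕ, j ≤ k → (3 * j : ℚ) ≠ v) :
    v + 3 - 3 * k ≠ 0 := by
  rcases Nat.eq_zero_or_pos k with hk | hk
  · rw [hk]; push_cast; intro h0; linarith
  · have := h (k - 1) (by omega)
    rw [Nat.cast_sub hk] at this
    push_cast at this
    intro h0; apply this; linarith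

lemma rel (v : ℚ) (hv : 0 < v) (k : ℕ) (h : ∀ j : ℕ, j ≤ k → (3 * j : ℚ) ≠ v) :
    T v k * ((v + 5) * (v + 1) * (v - 3 * k) * (v + 3 - 3 * k)) =
      T (v + 6) k * (v * (v + 1 - 4 * k) * (v + 3 - 4 * k) * (v + 5 - 4 * k)) := by
  induction k with
  | zero => rw [T_zero, T_zero]; push_cast; ring
  | succ k ih =>
    have ih' := ih (fun j hj => h j (by omega))
    have h1 : (3 * k + 3 - v : ℚ) ≠ 0 := by
      have := h (k + 1) le_rfl
      push_cast at this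
      intro h0; apply this; linarith
    have h2 := ne_aux hv (k := k) (fun j hj => h j (by omega))
    have h2' : (3 * k + 3 - (v + 6) : ℚ) ≠ 0 := by intro h0; apply h2; linarith
    have h3 : (k + 1 : ℚ) ≠ 0 := by positivity
    have E1 := T_succ_mul v k h1
    have E2 := T_succ_mul (v + 6) k h2'
    have hc : (6 * (k + 1) * (3 * k + 3 - (v + 6)) : ℚ) ≠ 0 :=
      mul_ne_zero (mul_ne_zero (by norm_num) h3) h2'
    apply mul_left_cancel₀ hc
    push_cast
    linear_combination (-(v + 5) * (v + 1) * (v - 3 * k) * (3 * k + 3 - (v + 6))) * E1 +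
      (4 * k + 1 - v) * (4 * k + 3 - v) * ih' -
      v * (v - 3 - 4 * k) * (v - 1 - 4 * k) * (v + 1 - 4 * k) * E2

lemma alg1 (K w v w3 v1 v5 K1 : ℚ) (e1 : w3 = w + 3) (e2 : v = w + 3 * K) (e3 : v1 = v + 1)
    (e4 : v5 = v + 5) (e5 : K1 = K + 1) (h1 : w ≠ 0) (h2 : w3 ≠ 0) (h3 : v1 ≠ 0)
    (h4 : v5 ≠ 0) (h5 : v ≠ 0) (h6 : K1 ≠ 0) :
    K * (64 * K ^ 2 - (80 * v + 176) * K + 19 * v ^ 2 + 98 * v + 111) /
        (3 * v1 * v5 * (-w3)) +
      (1 + (K + (v - 1) / 2) / (9 * v) *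
        ((v * (v + 1 - 4 * K) * (v + 3 - 4 * K) * (v + 5 - 4 * K)) / (v5 * v1 * w * w3))) =
    K1 * (64 * K1 ^ 2 - (80 * v + 176) * K1 + 19 * v ^ 2 + 98 * v + 111) /
        (3 * v1 * v5 * (-w)) *
      ((4 * K - v - 5) * (4 * K - v - 3) / (6 * K1 * (-w3))) := by
  field_simp
  subst e5 e4 e3 e2 e1
  ring

lemma alg2 (K w v w3 v1 v5 K1 : ℚ) (e1 : w3 = w + 3) (e2 : v = w + 3 * K) (e3 : v1 = v + 1)
    (e4 : v5 = v + 5) (e5 : K1 = K + 1) (h1 : w ≠ 0) (h2 : w3 ≠ 0) (h3 : v1 ≠ 0)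
    (h4 : v5 ≠ 0) (h5 : v ≠ 0) (h6 : K1 ≠ 0) :
    K * (7 * v + 23 - 22 * K) / (2 * (-w3)) +
      ((K + (v + 5) / 2) + (v1 * v5) / (12 * v) *
        ((v * (v + 1 - 4 * K) * (v + 3 - 4 * K) * (v + 5 - 4 * K)) / (v5 * v1 * w * w3))) =
    K1 * (7 * v + 23 - 22 * K1) / (2 * (-w)) *
      ((4 * K - v - 5) * (4 * K - v - 3) / (6 * K1 * (-w3))) := by
  field_simp
  subst e5 e4 e3 e2 e1
  ring

lemma step_data (v : ℚ) (hv : 0 < v) (k : ℕ) (h : ∀ j : ℕ, j ≤ k → (3 * j : ℚ) ≠ v) :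
    v - 3 * k ≠ 0 ∧ v - 3 * k + 3 ≠ 0 ∧
    T v k = T (v + 6) k * ((v * (v + 1 - 4 * k) * (v + 3 - 4 * k) * (v + 5 - 4 * k)) /
        ((v + 5) * (v + 1) * (v - 3 * k) * (v - 3 * k + 3))) ∧
    T (v + 6) (k + 1) = T (v + 6) k * ((4 * k - v - 5) * (4 * k - v - 3) /
      (6 * (k + 1) * (-(v - 3 * k + 3)))) := by
  have h0 : (v - 3 * k : ℚ) ≠ 0 := by
    have := h k le_rfl
    intro h0; apply this; linarith
  have h2 := ne_aux hv (k := k) h
  have h2' : v - 3 * k + 3 ≠ 0 := by intro h0; apply h2; linarith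
  have hr := rel v hv k h
  have hv1 : v + 1 ≠ 0 := by positivity
  have hv5 : v + 5 ≠ 0 := by positivity
  refine ⟨h0, h2', ?_, ?_⟩
  · rw [← mul_div_assoc, eq_div_iff (mul_ne_zero (mul_ne_zero (mul_ne_zero hv5 hv1) h0) h2'), ← hr]
    ring
  · rw [T_succ]
    congr 2
    · ring
    · ring

/-- first telescoping -/
lemma tele1 (v : ℚ) (hv : 0 < v) (M : ℕ) (h : ∀ j : ℕ, j < M → (3 * j : ℚ) ≠ v) :
    ∑ k ∈ range M, (T (v + 6) k + (k + (v - 1) / 2) / (9 * v) * T v k) =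
      M * (64 * M ^ 2 - (80 * v + 176) * M + 19 * v ^ 2 + 98 * v + 111) /
        (3 * (v + 1) * (v + 5) * (-(v - 3 * M + 3))) * T (v + 6) M := by
  induction M with
  | zero => simp
  | succ k ih =>
    rw [Finset.sum_range_succ, ih (fun j hj => h j (by omega))]
    obtain ⟨h0, h2, e1, e2⟩ := step_data v hv k (fun j hj => h j (by omega))
    have h3 : (k + 1 : ℚ) ≠ 0 := by positivity
    have hv1 : v + 1 ≠ 0 := by positivity
    have hv5 : v + 5 ≠ 0 := by positivity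
    have hal := alg1 (k : ℚ) (v - 3 * k) v (v - 3 * k + 3) (v + 1) (v + 5) (k + 1) rfl (by ring)
      rfl rfl rfl h0 h2 hv1 hv5 hv.ne' h3
    rw [e1, e2]
    have e3 : v - 3 * ((k + 1 : ℕ) : ℚ) + 3 = v - 3 * k := by push_cast; ring
    rw [e3]
    push_cast
    linear_combination (T (v + 6) k) * hal

/-- second telescoping -/
lemma tele2 (v : ℚ) (hv : 0 < v) (M : ℕ) (h : ∀ j : ℕ, j < M → (3 * j : ℚ) ≠ v) :
    ∑ k ∈ range M, ((k + (v + 5) / 2) * T (v + 6) k + ((v + 1) * (v + 5)) / (12 * v) * T v k) =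
      M * (7 * v + 23 - 22 * M) / (2 * (-(v - 3 * M + 3))) * T (v + 6) M := by
  induction M with
  | zero => simp
  | succ k ih =>
    rw [Finset.sum_range_succ, ih (fun j hj => h j (by omega))]
    obtain ⟨h0, h2, e1, e2⟩ := step_data v hv k (fun j hj => h j (by omega))
    have h3 : (k + 1 : ℚ) ≠ 0 := by positivity
    have hv1 : v + 1 ≠ 0 := by positivity
    have hv5 : v + 5 ≠ 0 := by positivity
    have hal := alg2 (k : ℚ) (v - 3 * k) v (v - 3 * k + 3) (v + 1) (v + 5) (k + 1) rfl (by ring)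
      rfl rfl rfl h0 h2 hv1 hv5 hv.ne' h3
    rw [e1, e2]
    have e3 : v - 3 * ((k + 1 : ℕ) : ℚ) + 3 = v - 3 * k := by push_cast; ring
    rw [e3]
    push_cast
    linear_combination (T (v + 6) k) * hal

/-- the sums -/
def S (v : ℕ) : ℚ := ∑ k ∈ range v, T v k

/-- the companion sums -/
def U (v : ℕ) : ℚ := ∑ k ∈ range v, (k + ((v : ℚ) - 1) / 2) * T v k

lemma sum_ext_range {v K : ℕ} (hv : v % 2 = 1) (hK : v / 4 < K) (g : ℕ → ℚ) :
    ∑ k ∈ range K, g k * T v k = ∑ k ∈ range (v / 4 + 1), g k * T v k := by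
  symm
  apply Finset.sum_subset
  · intro k hk
    rw [Finset.mem_range] at hk ⊢
    omega
  · intro k _ hk2
    rw [Finset.mem_range, not_lt] at hk2
    rw [T_eq_zero_of hv (by omega), mul_zero]

lemma S_eq {v K : ℕ} (hv : v % 2 = 1) (hK : v / 4 < K) : S v = ∑ k ∈ range K, T v k := by
  have h1 := sum_ext_range hv hK (fun _ => 1)
  have h2 := sum_ext_range (K := v) hv (by omega) (fun _ => 1)
  simp only [one_mul] at h1 h2
  unfold S
  rw [h1, h2]

lemma U_eq {v K : ℕ} (hv : v % 2 = 1) (hK : v / 4 < K) :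
    U v = ∑ k ∈ range K, (k + ((v : ℚ) - 1) / 2) * T v k := by
  have h1 := sum_ext_range hv hK (fun k => (k + ((v : ℚ) - 1) / 2))
  have h2 := sum_ext_range (K := v) hv (by omega) (fun k => (k + ((v : ℚ) - 1) / 2))
  unfold U
  rw [h1, h2]

/-- range of telescoping -/
lemma exists_M {v : ℕ} (hv : v % 2 = 1) (h : v % 3 ≠ 0 ∨ 21 ≤ v) :
    ∃ M : ℕ, (v + 6) / 4 < M ∧ ∀ j : ℕ, j < M → (3 * j : ℚ) ≠ v := by
  by_cases h3 : v % 3 = 0
  · have h21 : 21 ≤ v := by
      rcases h with h | h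
      · exact absurd h3 h
      · exact h
    refine ⟨v / 3, by omega, fun j hj => ?_⟩
    intro he
    have : 3 * j = v := by exact_mod_cast he
    omega
  · refine ⟨v + 6, by omega, fun j _ => ?_⟩
    intro he
    have : 3 * j = v := by exact_mod_cast he
    omega

lemma S_step {v : ℕ} (hv : v % 2 = 1) (h : v % 3 ≠ 0 ∨ 21 ≤ v) :
    S (v + 6) = -U v / (9 * v) := by
  obtain ⟨M, hM1, hM2⟩ := exists_M hv h
  have hvpos : 0 < (v : ℚ) := by
    have : 0 < v := by omega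
    exact_mod_cast this
  have h1 := tele1 v hvpos M hM2
  rw [S_eq (K := M) (by omega) hM1, U_eq (K := M) hv (by omega)]
  have h2 : T ((v : ℚ) + 6) M = 0 := by
    have := T_eq_zero_of (v := v + 6) (k := M) (by omega) hM1
    push_cast at this
    exact this
  rw [h2, mul_zero, Finset.sum_add_distrib] at h1
  push_cast
  have h3 : ∑ k ∈ range M, ((k : ℚ) + ((v : ℚ) - 1) / 2) / (9 * v) * T v k =
      (∑ k ∈ range M, ((k : ℚ) + ((v : ℚ) - 1) / 2) * T v k) / (9 * v) := by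
    rw [Finset.sum_div]
    apply Finset.sum_congr rfl
    intro k _
    ring
  rw [h3] at h1
  rw [neg_div]
  linarith

lemma U_step {v : ℕ} (hv : v % 2 = 1) (h : v % 3 ≠ 0 ∨ 21 ≤ v) :
    U (v + 6) = -((v + 1) * (v + 5) / (12 * v)) * S v := by
  obtain ⟨M, hM1, hM2⟩ := exists_M hv h
  have hvpos : 0 < (v : ℚ) := by
    have : 0 < v := by omega
    exact_mod_cast this
  have h1 := tele2 v hvpos M hM2
  rw [S_eq (K := M) hv (by omega), U_eq (K := M) (by omega) hM1]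
  have h2 : T ((v : ℚ) + 6) M = 0 := by
    have := T_eq_zero_of (v := v + 6) (k := M) (by omega) hM1
    push_cast at this
    exact this
  rw [h2, mul_zero, Finset.sum_add_distrib, ← Finset.mul_sum] at h1
  push_cast
  have h3 : ∀ k : ℕ, ((k : ℚ) + ((v : ℚ) + 6 - 1) / 2) * T ((v : ℚ) + 6) k =
      ((k : ℚ) + ((v : ℚ) + 5) / 2) * T ((v : ℚ) + 6) k := by intro k; ring
  simp only [h3]
  linarith

lemma S_step2 {v : ℕ} (hv : v % 2 = 1) (h : v % 3 ≠ 0 ∨ 21 ≤ v) :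
    S (v + 12) = ((v + 1) * (v + 5)) / (108 * v * (v + 6)) * S v := by
  have h1 := S_step (v := v + 6) (by omega) (by omega)
  have h2 := U_step hv h
  have hvpos : 0 < (v : ℚ) := by
    have : 0 < v := by omega
    exact_mod_cast this
  rw [show v + 12 = v + 6 + 6 by ring, h1, h2]
  push_cast
  field_simp
  try ring

lemma U_step2 {v : ℕ} (hv : v % 2 = 1) (h : v % 3 ≠ 0 ∨ 21 ≤ v) :
    U (v + 12) = ((v + 7) * (v + 11)) / (108 * v * (v + 6)) * U v := by
  have h1 := U_step (v := v + 6) (by omega) (by omega)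
  have h2 := S_step hv h
  have hvpos : 0 < (v : ℚ) := by
    have : 0 < v := by omega
    exact_mod_cast this
  rw [show v + 12 = v + 6 + 6 by ring, h1, h2]
  push_cast
  field_simp
  try ring

end Pool.Agent.Helper9.SC
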