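import Mathlib
import Pool.Agent.Helper9.SC.Rec

/-!
Closed forms.
-/

open Finset

namespace Pool.Agent.Helper9.SC

lemma S_1 : S 1 = 1 := by norm_num [S, T, Finset.sum_range_succ]
lemma U_1 : U 1 = 0 := by norm_num [U, T, Finset.sum_range_succ]
lemma S_5 : S 5 = 1 / 3 := by
  rw [S_eq (K := 2) (by norm_num) (by norm_num)]
  norm_num [T, Finset.sum_range_succ]
lemma U_5 : U 5 = 0 := by
  rw [U_eq (K := 2) (by norm_num) (by norm_num)]
  norm_num [T, Finset.sum_range_succ]
lemma S_7 : S 7 = 0 := by
  rw [S_eq (K := 2) (by norm_num) (by norm_num)]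
  norm_num [T, Finset.sum_range_succ]
lemma S_11 : S 11 = 0 := by
  rw [S_eq (K := 3) (by norm_num) (by norm_num)]
  norm_num [T, Finset.sum_range_succ]
lemma S_15 : S 15 = 8 / 729 := by
  rw [S_eq (K := 4) (by norm_num) (by norm_num)]
  norm_num [T, Finset.sum_range_succ]
lemma U_15 : U 15 = 35 / 729 := by
  rw [U_eq (K := 4) (by norm_num) (by norm_num)]
  norm_num [T, Finset.sum_range_succ]
lemma S_27 : S 27 = 128 / 1240029 := by
  rw [S_eq (K := 7) (by norm_num) (by norm_num)]
  norm_num [T, Finset.sum_range_succ]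
lemma U_27 : U 27 = 1001 / 1240029 := by
  rw [U_eq (K := 7) (by norm_num) (by norm_num)]
  norm_num [T, Finset.sum_range_succ]
lemma S_21 : S 21 = -7 / 19683 := by
  rw [S_eq (K := 6) (by norm_num) (by norm_num)]
  norm_num [T, Finset.sum_range_succ]

/-- denominators in the first closed form -/
def D (n : ℕ) : ℚ := ∏ i ∈ range n, ((n : ℚ) + 1 + 3 * i)

lemma D_pos (n : ℕ) : 0 < D n := by
  unfold D
  apply Finset.prod_pos
  intro i _
  positivity

lemma D_step (n : ℕ) : (n + 1) * D (n + 3) = D n * ((4 * n + 1) * (4 * n + 4) * (4 * n + 7) * (4 * n + 10)) := by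
  have h1 : ∏ i ∈ range (n + 4), ((n : ℚ) + 1 + 3 * i) =
      (∏ i ∈ range (n + 3), ((n : ℚ) + 1 + 3 * ((i + 1 : ℕ) : ℚ))) * ((n : ℚ) + 1 + 3 * ((0 : ℕ) : ℚ)) :=
    Finset.prod_range_succ' _ _
  have h2 : ∏ i ∈ range (n + 3), ((n : ℚ) + 1 + 3 * ((i + 1 : ℕ) : ℚ)) = D (n + 3) := by
    unfold D
    apply Finset.prod_congr rfl
    intro i _
    push_cast; ring
  rw [h2, Finset.prod_range_succ, Finset.prod_range_succ, Finset.prod_range_succ,
    Finset.prod_range_succ] at h1
  have h3 : ∏ i ∈ range n, ((n : ℚ) + 1 + 3 * i) = D n := rfl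
  rw [h3] at h1
  push_cast at h1
  linear_combination -h1

lemma fact_succ (n : ℕ) : ((n + 1).factorial : ℚ) = (n + 1) * n.factorial := by
  rw [Nat.factorial_succ]; push_cast; ring

lemma closed1 (n : ℕ) (hn : n % 3 ≠ 2) :
    S (4 * n + 1) = (2 * n).factorial / (3 ^ n * n.factorial * D n) ∧ U (4 * n + 1) = 0 := by
  induction n using Nat.strong_induction_on with
  | _ n ih =>
    by_cases h3 : n < 3
    · have : n = 0 ∨ n = 1 := by omega
      rcases this with rfl | rfl
      · refine ⟨?_, U_1⟩
        rw [show 4 * 0 + 1 = 1 by norm_num, S_1]; norm_num [D]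
      · refine ⟨?_, U_5⟩
        rw [show 4 * 1 + 1 = 5 by norm_num, S_5]; norm_num [D, Nat.factorial]
    · obtain ⟨m, rfl⟩ : ∃ m, n = m + 3 := ⟨n - 3, by omega⟩
      obtain ⟨ih1, ih2⟩ := ih m (by omega) (by omega)
      have e : 4 * (m + 3) + 1 = (4 * m + 1) + 12 := by ring
      rw [e, S_step2 (by omega) (by omega), U_step2 (by omega) (by omega), ih1, ih2]
      refine ⟨?_, by ring⟩
      have hD := D_step m
      have hDm := (D_pos m).ne'
      have hDm3 := (D_pos (m + 3)).ne'
      have f1 := fact_succ m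
      have f2 := fact_succ (m + 1)
      have f3 := fact_succ (m + 2)
      have g1 := fact_succ (2 * m)
      have g2 := fact_succ (2 * m + 1)
      have g3 := fact_succ (2 * m + 2)
      have g4 := fact_succ (2 * m + 3)
      have g5 := fact_succ (2 * m + 4)
      have g6 := fact_succ (2 * m + 5)
      have hm1 : (m + 1 : ℚ) ≠ 0 := by positivity
      have hD3 : D (m + 3) = D m * ((4 * m + 1) * (4 * m + 4) * (4 * m + 7) * (4 * m + 10)) / (m + 1) := by
        rw [eq_div_iff hm1, ← hD]; ring
      have hmf : (m.factorial : ℚ) ≠ 0 := by exact_mod_cast m.factorial_ne_zero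
      rw [show 2 * (m + 3) = 2 * m + 5 + 1 by ring, g6, g5, g4, g3, g2, g1, f3, f2, f1, hD3]
      push_cast
      have h5 : (4 * (m : ℚ) + 1) ≠ 0 := by positivity
      have h6 : (4 * (m : ℚ) + 4) ≠ 0 := by positivity
      have h7 : (4 * (m : ℚ) + 7) ≠ 0 := by positivity
      have h8 : (4 * (m : ℚ) + 10) ≠ 0 := by positivity
      have h9 : (m + 1 + 1 : ℚ) ≠ 0 := by positivity
      have h10 : (m + 2 + 1 : ℚ) ≠ 0 := by positivity
      have h11 : (4 * (m : ℚ) + 1 + 6) ≠ 0 := by positivity
      have h12 : (3 : ℚ) ^ m ≠ 0 := by positivity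
      rw [pow_add]
      field_simp
      ring

lemma closed4 (m : ℕ) (hm : (4 * m + 3) % 3 ≠ 0) : S (4 * m + 3) = 0 := by
  induction m using Nat.strong_induction_on with
  | _ m ih =>
    by_cases h3 : m < 3
    · have : m = 1 ∨ m = 2 := by omega
      rcases this with rfl | rfl
      · exact S_7
      · exact S_11
    · obtain ⟨l, rfl⟩ : ∃ l, m = l + 3 := ⟨m - 3, by omega⟩
      have ih1 := ih l (by omega) (by omega)
      rw [show 4 * (l + 3) + 3 = (4 * l + 3) + 12 by ring, S_step2 (by omega) (by omega), ih1, mul_zero]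

lemma closed2 (n : ℕ) (hn : 1 ≤ n) :
    S (12 * n + 3) = 16 ^ n * (3 * n).factorial * (2 * n).factorial /
      (729 ^ n * (4 * n).factorial * n.factorial) ∧
    U (12 * n + 3) = (6 * n + 1).factorial * n.factorial /
      (729 ^ n * (4 * n).factorial * (3 * n).factorial) := by
  induction n with
  | zero => omega
  | succ n ih =>
    by_cases h0 : n = 0
    · subst h0
      rw [show 12 * (0 + 1) + 3 = 15 by norm_num, S_15, U_15]
      norm_num [Nat.factorial]
    · by_cases h1 : n = 1
      · subst h1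
        rw [show 12 * (1 + 1) + 3 = 27 by norm_num, S_27, U_27]
        norm_num [Nat.factorial]
      · obtain ⟨ih1, ih2⟩ := ih (by omega)
        rw [show 12 * (n + 1) + 3 = (12 * n + 3) + 12 by ring, S_step2 (by omega) (by omega),
          U_step2 (by omega) (by omega), ih1, ih2]
        have f1 := fact_succ n
        have f2 := fact_succ (2 * n)
        have f3 := fact_succ (2 * n + 1)
        have f4 := fact_succ (3 * n)
        have f5 := fact_succ (3 * n + 1)
        have f6 := fact_succ (3 * n + 2)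
        have g1 := fact_succ (4 * n)
        have g2 := fact_succ (4 * n + 1)
        have g3 := fact_succ (4 * n + 2)
        have g4 := fact_succ (4 * n + 3)
        have k1 := fact_succ (6 * n + 1)
        have k2 := fact_succ (6 * n + 2)
        have k3 := fact_succ (6 * n + 3)
        have k4 := fact_succ (6 * n + 4)
        have k5 := fact_succ (6 * n + 5)
        have k6 := fact_succ (6 * n + 6)
        have n1 : (n.factorial : ℚ) ≠ 0 := by exact_mod_cast n.factorial_ne_zero
        have n2 : ((3 * n).factorial : ℚ) ≠ 0 := by exact_mod_cast (3 * n).factorial_ne_zero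
        have n3 : ((4 * n).factorial : ℚ) ≠ 0 := by exact_mod_cast (4 * n).factorial_ne_zero
        constructor
        · rw [show 3 * (n + 1) = 3 * n + 2 + 1 by ring, show 2 * (n + 1) = 2 * n + 1 + 1 by ring,
            show 4 * (n + 1) = 4 * n + 3 + 1 by ring, f6, f5, f4, f3, f2, f1, g4, g3, g2, g1]
          push_cast
          rw [pow_succ, pow_succ]
          field_simp
          ring
        · rw [show 3 * (n + 1) = 3 * n + 2 + 1 by ring, show 6 * (n + 1) + 1 = 6 * n + 6 + 1 by ring,
            show 4 * (n + 1) = 4 * n + 3 + 1 by ring, f6, f5, f4, f1, g4, g3, g2, g1, k6, k5, k4, k3,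
            k2, k1]
          push_cast
          rw [pow_succ]
          field_simp
          ring

lemma closed3 (j : ℕ) (hj : 1 ≤ j) :
    S (12 * j + 9) = -(((6 * j + 4).factorial : ℚ) * j.factorial /
      (2 * (9 ^ (3 * j + 2) * (3 * j + 2).factorial * (4 * j + 2).factorial))) := by
  induction j with
  | zero => omega
  | succ n ih =>
    by_cases h0 : n = 0
    · subst h0
      rw [show 12 * (0 + 1) + 9 = 21 by norm_num, S_21]
      norm_num [Nat.factorial]
    · have ih1 := ih (by omega)
      rw [show 12 * (n + 1) + 9 = (12 * n + 9) + 12 by ring, S_step2 (by omega) (by omega), ih1]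
      have f1 := fact_succ n
      have f4 := fact_succ (3 * n + 2)
      have f5 := fact_succ (3 * n + 3)
      have f6 := fact_succ (3 * n + 4)
      have g1 := fact_succ (4 * n + 2)
      have g2 := fact_succ (4 * n + 3)
      have g3 := fact_succ (4 * n + 4)
      have g4 := fact_succ (4 * n + 5)
      have k1 := fact_succ (6 * n + 4)
      have k2 := fact_succ (6 * n + 5)
      have k3 := fact_succ (6 * n + 6)
      have k4 := fact_succ (6 * n + 7)
      have k5 := fact_succ (6 * n + 8)
      have k6 := fact_succ (6 * n + 9)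
      have n1 : (n.factorial : ℚ) ≠ 0 := by exact_mod_cast n.factorial_ne_zero
      have n2 : ((3 * n + 2).factorial : ℚ) ≠ 0 := by exact_mod_cast (3 * n + 2).factorial_ne_zero
      have n3 : ((4 * n + 2).factorial : ℚ) ≠ 0 := by exact_mod_cast (4 * n + 2).factorial_ne_zero
      rw [show 3 * (n + 1) + 2 = 3 * n + 4 + 1 by ring, show 6 * (n + 1) + 4 = 6 * n + 9 + 1 by ring,
            show 4 * (n + 1) + 2 = 4 * n + 5 + 1 by ring, f6, f5, f4, f1, g4, g3, g2, g1, k6, k5, k4, k3,
            k2, k1]
      have e9 : (9 : ℚ) ^ (3 * n + 4 + 1) = 729 * 9 ^ (3 * n + 2) := by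
        rw [show 3 * n + 4 + 1 = (3 * n + 2) + 3 by ring, pow_add]; norm_num; ring
      rw [e9]
      push_cast
      field_simp
      ring

end Pool.Agent.Helper9.SC
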