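import Mathlib
import Pool.Agent.Helper9.SC.Closed

/-!
Reduction of rational numbers modulo `p ^ 2`.
-/

open Finset

namespace Pool.Agent.Helper9.SC

/-- the ring of integers modulo `p ^ 2` -/
abbrev RR (p : ℕ) : Type := ZMod (p ^ 2)

/-- the rational number `a` reduces to `r` modulo `p ^ 2`. -/
def Red (p : ℕ) (a : ℚ) (r : RR p) : Prop :=
  ∃ (d : ℕ) (z : ℤ), ¬ p ∣ d ∧ a * d = z ∧ (z : RR p) = r * d

section

variable {p : ℕ} [hp : Fact p.Prime]

lemma isUnit_nat {d : ℕ} (hd : ¬ p ∣ d) : IsUnit (d : RR p) := by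
  rw [ZMod.isUnit_iff_coprime]
  exact Nat.Coprime.pow_right 2 ((Nat.coprime_comm.1 ((Nat.Prime.coprime_iff_not_dvd hp.out).2 hd)))

lemma isUnit_int {d : ℤ} (hd : ¬ (p : ℤ) ∣ d) : IsUnit (d : RR p) := by
  obtain ⟨m, rfl | rfl⟩ := d.eq_nat_or_neg
  · have h1 : ¬ p ∣ m := by
      intro h; exact hd (Int.natCast_dvd_natCast.2 h)
    simpa using isUnit_nat (p := p) h1
  · have h1 : ¬ p ∣ m := by
      intro h; exact hd ((Int.natCast_dvd_natCast.2 h).neg_right)
    simpa using (isUnit_nat (p := p) h1).neg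

lemma Red.cross {a : ℚ} {r : RR p} (h : Red p a r) {c z : ℤ} (hc : a * c = z) :
    r * c = z := by
  obtain ⟨d, z0, hd, h1, h2⟩ := h
  have hdu := isUnit_nat (p := p) hd
  apply hdu.mul_left_cancel
  have e1 : (z0 : ℚ) * c = z * d := by rw [← h1, ← hc]; ring
  have e2 : z0 * c = z * d := by exact_mod_cast e1
  have e3 : (z0 : RR p) * c = z * d := by exact_mod_cast congrArg (Int.cast : ℤ → RR p) e2
  rw [h2] at e3
  linear_combination e3

lemma Red.unique {a : ℚ} {r r' : RR p} (h : Red p a r) (h' : Red p a r') : r = r' := by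
  obtain ⟨d, z0, hd, h1, h2⟩ := h
  have h3 := h'.cross (c := (d : ℤ)) (z := z0) (by exact_mod_cast h1)
  have hdu := isUnit_nat (p := p) hd
  apply hdu.mul_right_cancel
  rw [← h2, ← h3]; push_cast; ring

lemma Red.int (z : ℤ) : Red p (z : ℚ) (z : RR p) := by
  refine ⟨1, z, ?_, by simp, by simp⟩
  intro h
  have := hp.out.one_lt
  have := Nat.le_of_dvd (by norm_num) h
  omega

lemma Red.nat (z : ℕ) : Red p (z : ℚ) (z : RR p) := by
  have := Red.int (p := p) (z : ℤ)
  simpa using this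

lemma Red.add {a b : ℚ} {r s : RR p} (h : Red p a r) (h' : Red p b s) :
    Red p (a + b) (r + s) := by
  obtain ⟨d, z, hd, h1, h2⟩ := h
  obtain ⟨d', z', hd', h1', h2'⟩ := h'
  refine ⟨d * d', z * d' + z' * d, ?_, ?_, ?_⟩
  · intro hdd
    rcases (hp.out.dvd_mul).1 hdd with h | h
    · exact hd h
    · exact hd' h
  · push_cast; rw [← h1, ← h1']; ring
  · push_cast; rw [h2, h2']; ring

lemma Red.mul {a b : ℚ} {r s : RR p} (h : Red p a r) (h' : Red p b s) :
    Red p (a * b) (r * s) := by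
  obtain ⟨d, z, hd, h1, h2⟩ := h
  obtain ⟨d', z', hd', h1', h2'⟩ := h'
  refine ⟨d * d', z * z', ?_, ?_, ?_⟩
  · intro hdd
    rcases (hp.out.dvd_mul).1 hdd with h | h
    · exact hd h
    · exact hd' h
  · push_cast; rw [← h1, ← h1']; ring
  · push_cast; rw [h2, h2']; ring

lemma Red.neg {a : ℚ} {r : RR p} (h : Red p a r) : Red p (-a) (-r) := by
  obtain ⟨d, z, hd, h1, h2⟩ := h
  refine ⟨d, -z, hd, ?_, ?_⟩
  · push_cast; rw [← h1]; ring
  · push_cast; rw [h2]; ring

lemma Red.sub {a b : ℚ} {r s : RR p} (h : Red p a r) (h' : Red p b s) :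
    Red p (a - b) (r - s) := by
  rw [sub_eq_add_neg, sub_eq_add_neg]; exact h.add h'.neg

lemma Red.pow {a : ℚ} {r : RR p} (h : Red p a r) (n : ℕ) : Red p (a ^ n) (r ^ n) := by
  induction n with
  | zero => simpa using Red.nat (p := p) 1
  | succ n ih => rw [pow_succ, pow_succ]; exact ih.mul h

lemma Red.sum {ι : Type*} (s : Finset ι) (f : ι → ℚ) (g : ι → RR p)
    (h : ∀ i ∈ s, Red p (f i) (g i)) : Red p (∑ i ∈ s, f i) (∑ i ∈ s, g i) := by
  classical
  induction s using Finset.induction_on with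
  | empty => simpa using Red.nat (p := p) 0
  | insert a s ha ih =>
    rw [Finset.sum_insert ha, Finset.sum_insert ha]
    exact (h a (Finset.mem_insert_self a s)).add (ih (fun i hi => h i (Finset.mem_insert_of_mem hi)))

lemma Red.div_nat {a : ℚ} {r r' : RR p} (h : Red p a r) {c : ℕ} (hc : ¬ p ∣ c)
    (hr : r' * (c : RR p) = r) : Red p (a / c) r' := by
  obtain ⟨d, z, hd, h1, h2⟩ := h
  have hc0 : (c : ℚ) ≠ 0 := by
    intro h0
    have : c = 0 := by exact_mod_cast h0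
    rw [this] at hc; exact hc (dvd_zero _)
  refine ⟨d * c, z, ?_, ?_, ?_⟩
  · intro hdd
    rcases (hp.out.dvd_mul).1 hdd with h | h
    · exact hd h
    · exact hc h
  · rw [← h1]; push_cast; field_simp
  · rw [h2, ← hr]; push_cast; ring

lemma Red.div_int {a : ℚ} {r r' : RR p} (h : Red p a r) {c : ℤ} (hc : ¬ (p : ℤ) ∣ c)
    (hr : r' * (c : RR p) = r) : Red p (a / c) r' := by
  obtain ⟨m, rfl | rfl⟩ := c.eq_nat_or_neg
  · have h1 : ¬ p ∣ m := by
      intro h; exact hc (Int.natCast_dvd_natCast.2 h)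
    have := h.div_nat h1 (r' := r') (by simpa using hr)
    simpa using this
  · have h1 : ¬ p ∣ m := by
      intro h; exact hc ((Int.natCast_dvd_natCast.2 h).neg_right)
    have := h.neg.div_nat h1 (r' := r') (by rw [← hr]; push_cast; ring)
    have e : a / (((-(m : ℤ)) : ℤ) : ℚ) = -a / m := by push_cast; rw [div_neg, neg_div]
    rw [e]; exact this

/-- conclusion : equal reductions. -/
lemma Red.congr {a b : ℚ} {r : RR p} (h : Red p a r) (h' : Red p b r) :
    ∃ c : ℚ, ¬ p ∣ c.den ∧ a - b = (p : ℚ) ^ 2 * c := by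
  have h0 := h.sub h'
  rw [sub_self] at h0
  obtain ⟨d, z, hd, h1, h2⟩ := h0
  rw [zero_mul, ZMod.intCast_zmod_eq_zero_iff_dvd] at h2
  obtain ⟨w, hw⟩ := h2
  have hd0 : (d : ℚ) ≠ 0 := by
    intro h0
    have : d = 0 := by exact_mod_cast h0
    rw [this] at hd; exact hd (dvd_zero _)
  refine ⟨(w : ℚ) / d, ?_, ?_⟩
  · intro hpd
    have h3 : (((w : ℚ) / ((d : ℤ) : ℚ)).den : ℤ) ∣ (d : ℤ) := by
      rw [← Rat.divInt_eq_div]
      exact Rat.den_dvd w d
    have h4 : ((w : ℚ) / d).den ∣ d := by exact_mod_cast h3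
    exact hd (hpd.trans h4)
  · rw [← mul_div_assoc, eq_div_iff hd0, h1, hw]
    push_cast; ring

/-- `p ^ 2 = 0` -/
lemma p_sq : (p : RR p) * p = 0 := by
  have := ZMod.natCast_self (p ^ 2)
  push_cast at this
  rw [← this]; ring

end

end Pool.Agent.Helper9.SC
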