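import Mathlib
import Pool.Agent.Helper9.SC.Red

/-!
Linear interpolation modulo `p ^ 2`.
-/

open Finset

namespace Pool.Agent.Helper9.SC

section

variable {p : ℕ} [hp : Fact p.Prime]

lemma not_dvd_of_lt {k : ℕ} (h0 : 0 < k) (h1 : k < p) : ¬ p ∣ k := by
  intro h
  have := Nat.le_of_dvd h0 h
  omega

lemma lin (h3 : 3 < p) (k : ℕ) (hk : k < p) :
    ∃ x y : RR p, ∀ u : ℕ, Red p (T ((p : ℚ) * u) k) (x + u * p * y) := by
  induction k with
  | zero =>
    refine ⟨1, 0, fun u => ?_⟩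
    rw [T_zero, mul_zero, add_zero]
    simpa using Red.nat (p := p) 1
  | succ k ih =>
    obtain ⟨x, y, hxy⟩ := ih (by omega)
    have hk1 : ¬ p ∣ (k + 1) := not_dvd_of_lt (by omega) hk
    have h18 : ¬ p ∣ 18 * (k + 1) ^ 2 := by
      intro h
      rcases (hp.out.dvd_mul).1 h with h | h
      · have h4 : (18 : ℕ) = 2 * 3 ^ 2 := by norm_num
        rw [h4] at h
        rcases (hp.out.dvd_mul).1 h with h | h
        · have := Nat.le_of_dvd (by norm_num) h; omega
        · have := Nat.le_of_dvd (by norm_num) (hp.out.dvd_of_dvd_pow h); omega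
      · exact hk1 (hp.out.dvd_of_dvd_pow h)
    obtain ⟨e, he⟩ := (isUnit_nat (p := p) h18).exists_left_inv
    push_cast at he
    have hpp := p_sq (p := p)
    refine ⟨x * ((4 * k + 1) * (4 * k + 3)) * e,
      y * ((4 * k + 1) * (4 * k + 3)) * e - x * (8 * k + 4) * e +
        x * ((4 * k + 1) * (4 * k + 3)) * e ^ 2 * (6 * (k + 1)), fun u => ?_⟩
    have hT : T ((p : ℚ) * u) (k + 1) = (T ((p : ℚ) * u) k *
        (((4 * k + 1 - p * u) * (4 * k + 3 - p * u) : ℤ) : ℚ)) /
        ((6 * (k + 1) * (3 * k + 3 - p * u) : ℤ) : ℚ) := by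
      rw [T_succ]; push_cast; ring
    rw [hT]
    apply Red.div_int ((hxy u).mul (Red.int _))
    · intro h
      have hpi : Prime (p : ℤ) := Nat.prime_iff_prime_int.1 hp.out
      have h6 : (p : ℤ) ∣ 18 * (k + 1) ^ 2 := by
        have : (18 : ℤ) * (k + 1) ^ 2 = 6 * (k + 1) * (3 * k + 3 - p * u) + p * (6 * (k + 1) * u) := by
          ring
        rw [this]
        exact dvd_add h (Dvd.intro _ rfl)
      apply h18
      exact_mod_cast h6
    · push_cast
      linear_combination (x * ((4 * k + 1) * (4 * k + 3)) + u * p * (y * ((4 * k + 1) * (4 * k + 3)) -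
        x * (8 * k + 4) + x * ((4 * k + 1) * (4 * k + 3)) * e * (6 * (k + 1)))) * he +
        (-(u : RR p) ^ 2 * (y * ((4 * k + 1) * (4 * k + 3)) * e - x * (8 * k + 4) * e +
        x * ((4 * k + 1) * (4 * k + 3)) * e ^ 2 * (6 * (k + 1))) * (6 * (k + 1)) +
        u ^ 2 * y * (8 * k + 4) - x * u ^ 2 - u ^ 3 * p * y) * hpp

lemma linsum (h3 : 3 < p) (g : ℕ → ℤ) :
    ∃ X Y : RR p, ∀ u : ℕ,
      Red p (∑ k ∈ range p, (g k : ℚ) * T ((p : ℚ) * u) k) (X + u * p * Y) := by
  have h := fun k (hk : k < p) => lin h3 k hk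
  choose! x y hxy using h
  refine ⟨∑ k ∈ range p, (g k : RR p) * x k, ∑ k ∈ range p, (g k : RR p) * y k,
    fun u => ?_⟩
  rw [Finset.mul_sum, ← Finset.sum_add_distrib]
  apply Red.sum
  intro k hk
  rw [Finset.mem_range] at hk
  have := (Red.int (p := p) (g k)).mul (hxy k hk u)
  have e : (g k : RR p) * x k + u * p * ((g k : RR p) * y k) =
    (g k : RR p) * (x k + u * p * y k) := by ring
  rw [e]; exact this

end

/-- the original sums -/
def A (p : ℕ) : ℚ := ∑ k ∈ range p, ((2 * k).choose k : ℚ) * ((4 * k).choose (2 * k)) / 72 ^ k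

def B (p : ℕ) : ℚ := ∑ k ∈ range p, (1 - k : ℚ) * ((2 * k).choose k) * ((4 * k).choose (2 * k)) / 72 ^ k

lemma choose_eq (k : ℕ) : ((2 * k).choose k : ℚ) * ((4 * k).choose (2 * k)) =
    (4 * k).factorial / ((2 * k).factorial * k.factorial ^ 2) := by
  rw [Nat.cast_choose ℚ (show k ≤ 2 * k by omega), Nat.cast_choose ℚ (show 2 * k ≤ 4 * k by omega)]
  rw [show 2 * k - k = k by omega, show 4 * k - 2 * k = 2 * k by omega]
  have h1 : (k.factorial : ℚ) ≠ 0 := by exact_mod_cast k.factorial_ne_zero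
  have h2 : ((2 * k).factorial : ℚ) ≠ 0 := by exact_mod_cast (2 * k).factorial_ne_zero
  field_simp

lemma T_orig (k : ℕ) : T 0 k = ((2 * k).choose k : ℚ) * ((4 * k).choose (2 * k)) / 72 ^ k := by
  rw [choose_eq]
  induction k with
  | zero => simp [T_zero]
  | succ k ih =>
    rw [T_succ, ih]
    have f1 := fact_succ k
    have f2 := fact_succ (2 * k)
    have f3 := fact_succ (2 * k + 1)
    have g1 := fact_succ (4 * k)
    have g2 := fact_succ (4 * k + 1)
    have g3 := fact_succ (4 * k + 2)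
    have g4 := fact_succ (4 * k + 3)
    rw [show 2 * (k + 1) = 2 * k + 1 + 1 by ring, show 4 * (k + 1) = 4 * k + 3 + 1 by ring,
      g4, g3, g2, g1, f3, f2, f1, pow_succ]
    have h1 : (k.factorial : ℚ) ≠ 0 := by exact_mod_cast k.factorial_ne_zero
    have h2 : ((2 * k).factorial : ℚ) ≠ 0 := by exact_mod_cast (2 * k).factorial_ne_zero
    push_cast
    field_simp
    ring

lemma A_eq (p : ℕ) : A p = ∑ k ∈ range p, ((1 : ℤ) : ℚ) * T ((p : ℚ) * ((0 : ℕ) : ℚ)) k := by
  unfold A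
  apply Finset.sum_congr rfl
  intro k _
  rw [Nat.cast_zero, mul_zero, T_orig]; push_cast; ring

lemma B_eq (p : ℕ) : 2 * B p = A p -
    ∑ k ∈ range p, (((2 * k - 1 : ℤ)) : ℚ) * T ((p : ℚ) * ((0 : ℕ) : ℚ)) k := by
  unfold A B
  rw [← Finset.sum_sub_distrib, Finset.mul_sum]
  apply Finset.sum_congr rfl
  intro k _
  rw [Nat.cast_zero, mul_zero, T_orig]; push_cast; ring

section

variable {p : ℕ} [hp : Fact p.Prime]

/-- reduction of `A_p` in terms of the two deformed sums. -/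
lemma A_red (h3 : 3 < p) : ∃ X Y : RR p, Red p (A p) X ∧ Red p (S p) (X + p * Y) ∧
    Red p (S (3 * p)) (X + 3 * p * Y) := by
  obtain ⟨X, Y, h⟩ := linsum h3 (fun _ => 1)
  have hodd : p % 2 = 1 := by
    rcases hp.out.eq_two_or_odd with h | h
    · omega
    · exact h
  refine ⟨X, Y, ?_, ?_, ?_⟩
  · have := h 0
    rw [A_eq]
    simpa using this
  · have := h 1
    rw [S_eq (K := p) hodd (by omega)]
    simpa using this
  · have := h 3
    rw [S_eq (K := p) (by omega) (by omega)]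
    push_cast at this ⊢
    simp only [one_mul] at this
    rw [mul_comm (p : ℚ) 3] at this
    exact this

/-- reduction of `2 B_p` for `U p = 0`. -/
lemma B_red (h3 : 3 < p) (hU : U p = 0) {X Y : RR p} (h1 : Red p (A p) X)
    (h2 : Red p (S p) (X + p * Y)) (h4 : Red p (S (3 * p)) (X + 3 * p * Y)) :
    ∃ μ : RR p, Red p (U (3 * p)) μ ∧ Red p (2 * B p) (X + μ) := by
  obtain ⟨X', Y', h⟩ := linsum h3 (fun k => 2 * k - 1)
  have hodd : p % 2 = 1 := by
    rcases hp.out.eq_two_or_odd with h | h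
    · omega
    · exact h
  have hpp := p_sq (p := p)
  -- first relation
  have e1 : ∑ k ∈ range p, (((2 * (k : ℤ) - 1 : ℤ)) : ℚ) * T ((p : ℚ) * ((1 : ℕ) : ℚ)) k =
      2 * U p - p * S p := by
    rw [U_eq (K := p) hodd (by omega), S_eq (K := p) hodd (by omega), Finset.mul_sum,
      Finset.mul_sum, ← Finset.sum_sub_distrib]
    apply Finset.sum_congr rfl
    intro k _
    rw [Nat.cast_one, mul_one]; push_cast; ring
  have e3 : ∑ k ∈ range p, (((2 * (k : ℤ) - 1 : ℤ)) : ℚ) * T ((p : ℚ) * ((3 : ℕ) : ℚ)) k =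
      2 * U (3 * p) - 3 * p * S (3 * p) := by
    rw [U_eq (v := 3 * p) (K := p) (by omega) (by omega), S_eq (v := 3 * p) (K := p) (by omega) (by omega),
      Finset.mul_sum, Finset.mul_sum, ← Finset.sum_sub_distrib]
    apply Finset.sum_congr rfl
    intro k _
    have : (p : ℚ) * ((3 : ℕ) : ℚ) = ((3 * p : ℕ) : ℚ) := by push_cast; ring
    rw [this]; push_cast; ring
  have r1 := h 1
  rw [e1, hU, mul_zero, zero_sub] at r1
  have r1' := ((Red.nat (p := p) p).mul h2).neg
  have q1 := r1.unique r1'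
  have r3 := h 3
  rw [e3] at r3
  have hU3 : U (3 * p) = ((2 * U (3 * p) - 3 * p * S (3 * p)) + 3 * p * S (3 * p)) / ((2 : ℕ) : ℚ) := by
    push_cast; ring
  have h2n : ¬ p ∣ 2 := not_dvd_of_lt (by norm_num) (by omega)
  obtain ⟨i2, hi2⟩ := (isUnit_nat (p := p) h2n).exists_left_inv
  have r4 : Red p (3 * p * S (3 * p)) (3 * p * (X + 3 * p * Y)) := by
    have := ((Red.nat (p := p) 3).mul (Red.nat (p := p) p)).mul h4
    push_cast at this
    exact this
  have r5 := r3.add r4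
  have r6 := r5.div_nat h2n (r' := (i2 * (X' + ((3 : ℕ) : RR p) * (p : RR p) * Y' + 3 * (p : RR p) * (X + 3 * (p : RR p) * Y)) : RR p))
    (by rw [mul_right_comm, hi2, one_mul])
  rw [← hU3] at r6
  refine ⟨_, r6, ?_⟩
  rw [B_eq]
  have r0 := h1.sub (h 0)
  have e : X - (X' + ((0 : ℕ) : RR p) * p * Y') =
      X + i2 * (X' + ((3 : ℕ) : RR p) * p * Y' + 3 * p * (X + 3 * p * Y)) := by
    push_cast at q1 hi2 ⊢
    -- 2 X' = -3 p X - (2 μ - 3 p X)
    have h2u : IsUnit ((2 : ℕ) : RR p) := isUnit_nat h2n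
    apply h2u.mul_left_cancel
    push_cast
    linear_combination (-(X' + 3 * p * Y' + 3 * p * (X + 3 * p * Y))) * hi2 - 3 * q1 +
      (3 * Y - 9 * Y) * hpp
  rw [← e]
  exact r0

end

end Pool.Agent.Helper9.SC
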