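import Mathlib
import Pool.Agent.Helper9.SC.Lin

/-!
Evaluation in the ring modulo `p ^ 2`.
-/

open Finset

namespace Pool.Agent.Helper9.SC

section

variable {p : ℕ} [hp : Fact p.Prime]

lemma pmul_eq {a b : ℤ} (h : (a : ZMod p) = b) : (p : RR p) * a = p * b := by
  have h1 : ((a - b : ℤ) : ZMod p) = 0 := by push_cast; rw [h, sub_self]
  rw [ZMod.intCast_zmod_eq_zero_iff_dvd] at h1
  obtain ⟨c, hc⟩ := h1
  have h2 : (a : RR p) = b + p * c := by
    have : a = b + p * c := by linarith
    rw [this]; push_cast; ring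
  have hpp := p_sq (p := p)
  rw [h2]
  linear_combination c * hpp

lemma exists_eq_add {a b : ℤ} (h : (a : ZMod p) = b) : ∃ c : RR p, (a : RR p) = b + p * c := by
  have h1 : ((a - b : ℤ) : ZMod p) = 0 := by push_cast; rw [h, sub_self]
  rw [ZMod.intCast_zmod_eq_zero_iff_dvd] at h1
  obtain ⟨c, hc⟩ := h1
  refine ⟨c, ?_⟩
  have : a = b + p * c := by linarith
  rw [this]; push_cast; ring

lemma wilson : (p : RR p) * ((p - 1).factorial : ℕ) = -p := by
  have h := ZMod.wilsons_lemma p
  have h2 := pmul_eq (p := p) (a := ((p - 1).factorial : ℤ)) (b := -1) (by push_cast; exact h)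
  push_cast at h2
  rw [h2]; ring

lemma prodE (n : ℕ) : ∃ E : RR p, ∀ z : RR p,
    ∏ l ∈ range n, (((l : RR p) + 1) - p * z) = (n.factorial : ℕ) - p * z * E := by
  have hpp := p_sq (p := p)
  induction n with
  | zero => exact ⟨0, fun z => by simp⟩
  | succ n ih =>
    obtain ⟨E, hE⟩ := ih
    refine ⟨(n + 1) * E + (n.factorial : ℕ), fun z => ?_⟩
    rw [Finset.prod_range_succ, hE, Nat.factorial_succ]
    push_cast
    linear_combination (z ^ 2 * E) * hpp

lemma facprod (N n : ℕ) (h : n ≤ N) :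
    (∏ l ∈ range n, ((N : RR p) - l)) * ((N - n).factorial : ℕ) = (N.factorial : ℕ) := by
  induction n with
  | zero => simp
  | succ n ih =>
    rw [Finset.prod_range_succ, ← ih (by omega)]
    have e : N - n = (N - (n + 1)) + 1 := by omega
    have e2 : ((N - n : ℕ) : RR p) = (N : RR p) - n := by
      rw [Nat.cast_sub (by omega)]
    have e3 : ((N - n).factorial : ℕ) = (N - n) * (N - (n + 1)).factorial := by
      rw [e, Nat.factorial_succ]
    rw [e3]
    push_cast
    rw [e2]
    ring

/-- `(p-1)! = (p-1-n)! (-1)^n (n! - p E)` -/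
lemma fac_top {n : ℕ} (hn : n < p) {E : RR p} (hE : ∀ z : RR p,
    ∏ l ∈ range n, (((l : RR p) + 1) - p * z) = (n.factorial : ℕ) - p * z * E) :
    ((p - 1).factorial : ℕ) = ((p - 1 - n).factorial : RR p) * ((-1) ^ n * ((n.factorial : ℕ) - p * E)) := by
  have h1 := facprod (p := p) (p - 1) n (by omega)
  have h2 : ∏ l ∈ range n, (((p - 1 : ℕ) : RR p) - l) = (-1) ^ n * ((n.factorial : ℕ) - p * E) := by
    have h3 := hE 1
    rw [mul_one] at h3
    rw [← h3]
    have h4 : ∀ l ∈ range n, (((p - 1 : ℕ) : RR p) - l) = (-1) * (((l : RR p) + 1) - p) := by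
      intro l _
      rw [Nat.cast_sub hp.out.one_lt.le]; push_cast; ring
    rw [Finset.prod_congr rfl h4, Finset.prod_mul_distrib, Finset.prod_const, Finset.card_range]
  rw [← h1, h2]
  ring

lemma fac_beyond (j : ℕ) : (((p + j).factorial : ℕ) : RR p) = p * ((p - 1).factorial : ℕ) * (j.factorial : ℕ) := by
  have hpp := p_sq (p := p)
  induction j with
  | zero =>
    have : (p + 0).factorial = p * (p - 1).factorial := by
      rw [add_zero, Nat.mul_factorial_pred hp.out.ne_zero]
    rw [this]; push_cast; simp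
  | succ j ih =>
    rw [show p + (j + 1) = (p + j) + 1 by ring, Nat.factorial_succ, Nat.factorial_succ]
    push_cast
    rw [ih]
    linear_combination (((p - 1).factorial : ℕ) : RR p) * (j.factorial : ℕ) * hpp

lemma isUnit_fac {n : ℕ} (hn : n < p) : IsUnit ((n.factorial : ℕ) : RR p) := by
  apply isUnit_nat
  intro h
  have := (hp.out.dvd_factorial).1 h
  omega

/-- Euler's criterion for `3`, lifted. -/
lemma euler3 : ∃ c : RR p, (3 : RR p) ^ (p / 2) = (legendreSym p 3 : ℤ) + p * c := by
  have h := legendreSym.eq_pow p 3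
  obtain ⟨c, hc⟩ := exists_eq_add (p := p) (a := 3 ^ (p / 2)) (b := legendreSym p 3)
    (by push_cast; rw [h]; push_cast; rfl)
  refine ⟨c, ?_⟩
  push_cast at hc
  exact hc

lemma leg3_sq (h3 : 3 < p) : ((legendreSym p 3 : ℤ) : RR p) ^ 2 = 1 := by
  have h : ((3 : ℤ) : ZMod p) ≠ 0 := by
    intro h0
    rw [ZMod.intCast_zmod_eq_zero_iff_dvd] at h0
    have := Int.le_of_dvd (by norm_num) h0
    omega
  have := legendreSym.sq_one p h
  have h2 := congrArg (Int.cast : ℤ → RR p) this
  push_cast at h2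
  exact h2

end

end Pool.Agent.Helper9.SC
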