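import Mathlib

/-!
Jacobsthal sums.
-/

open Finset

namespace Pool.Agent.Helper9.SC

section

variable {p : ℕ} [hp : Fact p.Prime]

/-- the quadratic character -/
noncomputable abbrev chi (p : ℕ) [Fact p.Prime] (t : ZMod p) : ℤ := quadraticChar (ZMod p) t

/-- Jacobsthal sums -/
noncomputable def J (p : ℕ) [Fact p.Prime] (r : ZMod p) : ℤ := ∑ t : ZMod p, chi p (t * (t ^ 2 - r))

lemma ringChar_ne_two (h3 : 3 < p) : ringChar (ZMod p) ≠ 2 := by
  rw [ZMod.ringChar_zmod_n]; omega

lemma chi_mul (s t : ZMod p) : chi p (s * t) = chi p s * chi p t := map_mul _ _ _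

lemma chi_zero : chi p 0 = 0 := by
  unfold chi; exact MulChar.map_zero _

lemma chi_one : chi p 1 = 1 := by
  unfold chi; exact map_one _

lemma chi_sq {t : ZMod p} (ht : t ≠ 0) : chi p t * chi p t = 1 := by
  have := quadraticChar_sq_one ht
  rw [← pow_two]; exact this

lemma chi_sq' {t : ZMod p} (ht : t ≠ 0) : chi p (t ^ 2) = 1 := by
  rw [pow_two, chi_mul, chi_sq ht]

lemma sum_chi (h3 : 3 < p) : ∑ t : ZMod p, chi p t = 0 :=
  quadraticChar_sum_zero (ringChar_ne_two h3)

lemma sum_chi_add (h3 : 3 < p) (c : ZMod p) : ∑ t : ZMod p, chi p (c + t) = 0 := by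
  rw [← sum_chi h3]
  exact Equiv.sum_comp (Equiv.addLeft c) (fun t => chi p t)

lemma two_ne (h3 : 3 < p) : (2 : ZMod p) ≠ 0 := by
  intro h
  have h2 : ((2 : ℕ) : ZMod p) = 0 := by exact_mod_cast h
  rw [ZMod.natCast_eq_zero_iff] at h2
  have := Nat.le_of_dvd (by norm_num) h2
  omega

lemma sum_quad_ne (h3 : 3 < p) {c : ZMod p} (hc : c ≠ 0) :
    ∑ s : ZMod p, chi p (s * (s + c)) = -1 := by
  classical
  have h1 : ∑ s : ZMod p, chi p (s * (s + c)) = ∑ s ∈ univ.erase (0 : ZMod p), chi p (1 + c * s⁻¹) := by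
    rw [← Finset.add_sum_erase _ _ (Finset.mem_univ (0 : ZMod p)), zero_mul, chi_zero, zero_add]
    apply Finset.sum_congr rfl
    intro s hs
    have hs0 : s ≠ 0 := Finset.ne_of_mem_erase hs
    have : s * (s + c) = s ^ 2 * (1 + c * s⁻¹) := by field_simp
    rw [this, chi_mul, chi_sq' hs0, one_mul]
  have h2 : ∑ s ∈ univ.erase (0 : ZMod p), chi p (1 + c * s⁻¹) =
      ∑ w ∈ univ.erase (0 : ZMod p), chi p (1 + w) := by
    apply Finset.sum_bij' (fun s _ => c * s⁻¹) (fun w _ => c * w⁻¹)
    · intro s hs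
      have hs0 : s ≠ 0 := Finset.ne_of_mem_erase hs
      exact Finset.mem_erase.2 ⟨mul_ne_zero hc (inv_ne_zero hs0), Finset.mem_univ _⟩
    · intro s hs
      have hs0 : s ≠ 0 := Finset.ne_of_mem_erase hs
      exact Finset.mem_erase.2 ⟨mul_ne_zero hc (inv_ne_zero hs0), Finset.mem_univ _⟩
    · intro s hs
      have hs0 : s ≠ 0 := Finset.ne_of_mem_erase hs
      field_simp
    · intro s hs
      have hs0 : s ≠ 0 := Finset.ne_of_mem_erase hs
      field_simp
    · intro s _; rfl
  have h4 := sum_chi_add h3 1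
  rw [← Finset.add_sum_erase _ _ (Finset.mem_univ (0 : ZMod p)), add_zero, chi_one] at h4
  rw [h1, h2]
  linarith

lemma sum_quad (h3 : 3 < p) (a b : ZMod p) [Decidable (a = b)] :
    ∑ r : ZMod p, chi p ((a - r) * (b - r)) = if a = b then (p : ℤ) - 1 else -1 := by
  classical
  have h0 : ∑ r : ZMod p, chi p ((a - r) * (b - r)) = ∑ s : ZMod p, chi p (s * (s + (b - a))) := by
    rw [← Equiv.sum_comp (Equiv.subLeft a) (fun r => chi p ((a - r) * (b - r)))]
    apply Finset.sum_congr rfl
    intro s _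
    congr 1
    simp only [Equiv.subLeft_apply]
    ring
  rw [h0]
  split_ifs with hab
  · subst hab
    have : ∀ s : ZMod p, chi p (s * (s + (a - a))) = if s = 0 then 0 else 1 := by
      intro s
      split_ifs with hs
      · rw [hs, zero_mul, chi_zero]
      · rw [sub_self, add_zero, chi_mul, chi_sq hs]
    rw [Finset.sum_congr rfl (fun s _ => this s)]
    rw [Finset.sum_ite, Finset.sum_const_zero, zero_add, Finset.sum_const, nsmul_eq_mul, mul_one]
    rw [Finset.filter_not, Finset.filter_eq', if_pos (Finset.mem_univ _), Finset.card_sdiff_of_subset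
      (Finset.singleton_subset_iff.2 (Finset.mem_univ _)), Finset.card_singleton, Finset.card_univ,
      ZMod.card, Nat.cast_sub hp.out.one_lt.le]
    push_cast; ring
  · exact sum_quad_ne h3 (sub_ne_zero.2 (Ne.symm hab))

lemma chi_neg_one {n : ℕ} (hn : p = 4 * n + 1) : chi p (-1) = 1 := by
  have h1 : p % 4 ≠ 3 := by omega
  have hsq : IsSquare (-1 : ZMod p) := by
    rw [ZMod.exists_sq_eq_neg_one_iff]; exact h1
  obtain ⟨i, hi⟩ := hsq
  have hi0 : i ≠ 0 := by
    intro h0
    rw [h0, mul_zero] at hi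
    exact neg_ne_zero.2 one_ne_zero hi
  rw [hi, chi_mul, chi_sq hi0]

lemma sum_J_sq {n : ℕ} (hn : p = 4 * n + 1) (h3 : 3 < p) :
    ∑ r : ZMod p, J p r ^ 2 = 2 * p * (p - 1) := by
  classical
  have h1 : ∀ r : ZMod p, J p r ^ 2 = ∑ t : ZMod p, ∑ u : ZMod p,
      chi p (t * u) * chi p ((t ^ 2 - r) * (u ^ 2 - r)) := by
    intro r
    unfold J
    rw [pow_two, Finset.sum_mul_sum]
    apply Finset.sum_congr rfl
    intro t _
    apply Finset.sum_congr rfl
    intro u _
    rw [← chi_mul, ← chi_mul]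
    congr 1; ring
  rw [Finset.sum_congr rfl (fun r _ => h1 r), Finset.sum_comm]
  have h2 : ∀ t : ZMod p, ∑ r : ZMod p, ∑ u : ZMod p,
      chi p (t * u) * chi p ((t ^ 2 - r) * (u ^ 2 - r)) =
      ∑ u : ZMod p, chi p (t * u) * ((if t ^ 2 = u ^ 2 then (p : ℤ) else 0) - 1) := by
    intro t
    rw [Finset.sum_comm]
    apply Finset.sum_congr rfl
    intro u _
    rw [← Finset.mul_sum, sum_quad h3]
    congr 1
    split_ifs <;> ring
  rw [Finset.sum_congr rfl (fun t _ => h2 t)]
  have h4 : ∀ t : ZMod p, ∑ u : ZMod p, chi p (t * u) * ((if t ^ 2 = u ^ 2 then (p : ℤ) else 0) - 1) =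
      if t = 0 then 0 else 2 * (p : ℤ) := by
    intro t
    have e1 : ∑ u : ZMod p, chi p (t * u) * ((if t ^ 2 = u ^ 2 then (p : ℤ) else 0) - 1) =
        p * (∑ u : ZMod p, if t ^ 2 = u ^ 2 then chi p (t * u) else 0) - chi p t * ∑ u : ZMod p, chi p u := by
      rw [Finset.mul_sum, Finset.mul_sum, ← Finset.sum_sub_distrib]
      apply Finset.sum_congr rfl
      intro u _
      rw [← chi_mul]
      split_ifs <;> ring
    rw [e1, sum_chi h3, mul_zero, sub_zero]
    split_ifs with ht
    · subst ht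
      have : ∀ u : ZMod p, (if (0 : ZMod p) ^ 2 = u ^ 2 then chi p (0 * u) else 0) = 0 := by
        intro u; rw [zero_mul, chi_zero]; simp
      rw [Finset.sum_congr rfl (fun u _ => this u)]; simp
    · rw [← Finset.sum_filter]
      have hset : (univ.filter (fun u : ZMod p => t ^ 2 = u ^ 2)) = {t, -t} := by
        ext u
        rw [Finset.mem_filter, Finset.mem_insert, Finset.mem_singleton]
        constructor
        · rintro ⟨_, h⟩
          exact sq_eq_sq_iff_eq_or_eq_neg.1 h.symm
        · rintro (h | h)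
          · exact ⟨Finset.mem_univ _, by rw [h]⟩
          · exact ⟨Finset.mem_univ _, by rw [h]; ring⟩
      have hne : t ≠ -t := by
        intro h
        have : (2 : ZMod p) * t = 0 := by linear_combination h
        rcases mul_eq_zero.1 this with h | h
        · exact two_ne h3 h
        · exact ht h
      rw [hset, Finset.sum_pair hne, chi_mul, chi_sq ht]
      have : t * -t = (-1) * t ^ 2 := by ring
      rw [this, chi_mul, chi_neg_one hn, chi_sq' ht]
      ring
  rw [Finset.sum_congr rfl (fun t _ => h4 t)]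
  rw [Finset.sum_ite, Finset.sum_const_zero, zero_add, Finset.sum_const, nsmul_eq_mul]
  rw [Finset.filter_not, Finset.filter_eq', if_pos (Finset.mem_univ _), Finset.card_sdiff_of_subset
      (Finset.singleton_subset_iff.2 (Finset.mem_univ _)), Finset.card_singleton, Finset.card_univ,
      ZMod.card, Nat.cast_sub hp.out.one_lt.le]
  push_cast; ring

lemma J_scale {c : ZMod p} (hc : c ≠ 0) (r : ZMod p) : J p (r * c ^ 2) = chi p c * J p r := by
  unfold J
  rw [← Equiv.sum_comp (Equiv.mulLeft₀ c hc) (fun t => chi p (t * (t ^ 2 - r * c ^ 2))), Finset.mul_sum]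
  apply Finset.sum_congr rfl
  intro t _
  rw [← chi_mul]
  have : (Equiv.mulLeft₀ c hc) t * ((Equiv.mulLeft₀ c hc) t ^ 2 - r * c ^ 2) =
    c ^ 2 * (c * (t * (t ^ 2 - r))) := by
    show (c * t) * ((c * t) ^ 2 - r * c ^ 2) = _
    ring
  rw [this, chi_mul, chi_sq' hc, one_mul]

lemma J_zero (h3 : 3 < p) : J p 0 = 0 := by
  unfold J
  rw [← sum_chi h3]
  apply Finset.sum_congr rfl
  intro t _
  by_cases ht : t = 0
  · rw [ht, zero_mul]
  · rw [sub_zero, chi_mul, chi_sq' ht, mul_one]

lemma J_sq_form (h3 : 3 < p) {ν : ZMod p} (hν : chi p ν = -1) (r : ZMod p) :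
    2 * J p r ^ 2 = chi p r * chi p r * (J p 1 ^ 2 + J p ν ^ 2) + chi p r * (J p 1 ^ 2 - J p ν ^ 2) := by
  by_cases hr : r = 0
  · rw [hr, J_zero h3, chi_zero]; ring
  · rcases quadraticChar_dichotomy hr with h | h
    · have hsq : IsSquare r := (quadraticChar_one_iff_isSquare hr).1 h
      obtain ⟨c, hc⟩ := hsq
      have hc0 : c ≠ 0 := by
        intro h0; rw [h0, mul_zero] at hc; exact hr hc
      have h1 : J p r = chi p c * J p 1 := by
        rw [← J_scale hc0 1]; congr 1; rw [hc]; ring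
      have h2 : chi p r = 1 := h
      rw [h1, h2]
      have := chi_sq hc0
      linear_combination 2 * J p 1 ^ 2 * this
    · have hν0 : ν ≠ 0 := by
        intro h0; rw [h0, chi_zero] at hν; norm_num at hν
      have hrν : chi p (r * ν) = 1 := by
        have h2 : chi p r = -1 := h
        rw [chi_mul, h2, hν]; norm_num
      have hsq : IsSquare (r * ν) := (quadraticChar_one_iff_isSquare (mul_ne_zero hr hν0)).1 hrν
      obtain ⟨c, hc⟩ := hsq
      have hc0 : c * ν⁻¹ ≠ 0 := by
        apply mul_ne_zero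
        · intro h0; rw [h0, mul_zero] at hc; exact mul_ne_zero hr hν0 hc
        · exact inv_ne_zero hν0
      have h1 : J p r = chi p (c * ν⁻¹) * J p ν := by
        rw [← J_scale hc0 ν]; congr 1
        field_simp
        rw [pow_two, ← hc]
      have h2 : chi p r = -1 := h
      rw [h1, h2]
      have := chi_sq hc0
      linear_combination 2 * J p ν ^ 2 * this

lemma J_norm {n : ℕ} (hn : p = 4 * n + 1) (h3 : 3 < p) : ∃ ν : ZMod p,
    J p 1 ^ 2 + J p ν ^ 2 = 4 * p := by
  obtain ⟨ν, hν⟩ := quadraticChar_exists_neg_one (ringChar_ne_two h3)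
  refine ⟨ν, ?_⟩
  have h1 := Finset.sum_congr rfl (fun (r : ZMod p) (_ : r ∈ univ) => J_sq_form h3 hν r)
  rw [← Finset.mul_sum, sum_J_sq hn h3, Finset.sum_add_distrib, ← Finset.sum_mul, ← Finset.sum_mul,
    sum_chi h3, zero_mul, add_zero] at h1
  have h2 : ∑ r : ZMod p, chi p r * chi p r = (p : ℤ) - 1 := by
    have := sum_quad h3 (0 : ZMod p) 0
    rw [if_pos rfl] at this
    rw [← this]
    apply Finset.sum_congr rfl
    intro r _
    rw [← chi_mul]; congr 1; ring
  rw [h2] at h1
  have hp1 : (p : ℤ) - 1 ≠ 0 := by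
    have := hp.out.one_lt
    omega
  apply mul_left_cancel₀ hp1
  linear_combination -h1

end

end Pool.Agent.Helper9.SC
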