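import Mathlib
import Pool.Agent.Helper9.SC.Jacob

/-!
The Jacobsthal sum modulo 8, and the representation `p = x^2 + y^2`.
-/

open Finset

namespace Pool.Agent.Helper9.SC

section

variable {p : ℕ} [hp : Fact p.Prime]

/-- the summand -/
noncomputable def ff (p : ℕ) [Fact p.Prime] (t : ZMod p) : ℤ := chi p (t * (t ^ 2 - 1))

lemma ff_neg {n : ℕ} (hn : p = 4 * n + 1) (t : ZMod p) : ff p (-t) = ff p t := by
  unfold ff
  have : -t * ((-t) ^ 2 - 1) = (-1) * (t * (t ^ 2 - 1)) := by ring
  rw [this, chi_mul, chi_neg_one hn, one_mul]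

lemma ff_inv {n : ℕ} (hn : p = 4 * n + 1) {t : ZMod p} (ht : t ≠ 0) : ff p (t⁻¹) = ff p t := by
  unfold ff
  have : t⁻¹ * (t⁻¹ ^ 2 - 1) = (-1) * ((t⁻¹ ^ 2) ^ 2 * (t * (t ^ 2 - 1))) := by
    field_simp
    ring
  rw [this, chi_mul, chi_neg_one hn, one_mul, chi_mul, chi_sq' (pow_ne_zero 2 (inv_ne_zero ht)), one_mul]

lemma J_one_mod {n : ℕ} (hn : p = 4 * n + 1) (h3 : 3 < p) : ∃ k : ℤ, J p 1 = 4 * n - 2 - 8 * k := by
  classical
  have h2 := two_ne h3
  -- square root of -1
  have hsq : IsSquare (-1 : ZMod p) := by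
    rw [ZMod.exists_sq_eq_neg_one_iff]; omega
  obtain ⟨i, hi⟩ := hsq
  have hi2 : i ^ 2 = -1 := by rw [hi]; ring
  have hne1 : (1 : ZMod p) ≠ -1 := by
    intro h; apply h2; linear_combination h
  have hi0 : i ≠ 0 := by
    intro h0; rw [h0] at hi2; simp at hi2
  have hi1 : i ≠ 1 := by
    intro h0; rw [h0] at hi2; apply h2; linear_combination hi2
  have hin1 : i ≠ -1 := by
    intro h0; rw [h0] at hi2; apply h2; linear_combination hi2
  have hni : i ≠ -i := by
    intro h0
    have : (2 : ZMod p) * i = 0 := by linear_combination h0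
    rcases mul_eq_zero.1 this with h | h
    · exact h2 h
    · exact hi0 h
  have hni0 : -i ≠ 0 := neg_ne_zero.2 hi0
  have hni1 : -i ≠ 1 := by intro h; apply hin1; linear_combination -h
  have hnin1 : -i ≠ -1 := by intro h; apply hi1; linear_combination -h
  -- values at special points
  have fi : ff p i = 1 := by
    unfold ff
    have : i * (i ^ 2 - 1) = (-1) * (1 + i) ^ 2 := by
      linear_combination (i + 1) * hi2
    have h1i : (1 + i) ≠ 0 := by
      intro h; apply hin1; linear_combination h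
    rw [this, chi_mul, chi_neg_one hn, chi_sq' h1i, one_mul]
  have fni : ff p (-i) = 1 := by rw [ff_neg hn, fi]
  set Sp : Finset (ZMod p) := {0, 1, -1, i, -i} with hSp
  have hcardS : Sp.card = 5 := by
    rw [hSp, Finset.card_insert_of_notMem, Finset.card_insert_of_notMem, Finset.card_insert_of_notMem,
      Finset.card_pair hni]
    · simp only [Finset.mem_insert, Finset.mem_singleton, not_or]
      exact ⟨hin1.symm, hnin1.symm⟩
    · simp only [Finset.mem_insert, Finset.mem_singleton, not_or]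
      exact ⟨hne1, hi1.symm, hni1.symm⟩
    · simp only [Finset.mem_insert, Finset.mem_singleton, not_or]
      refine ⟨zero_ne_one, ?_, hi0.symm, hni0.symm⟩
      intro h; exact one_ne_zero (show (1 : ZMod p) = 0 by linear_combination h)
  have hsumS : ∑ t ∈ Sp, ff p t = 2 := by
    rw [hSp, Finset.sum_insert, Finset.sum_insert, Finset.sum_insert, Finset.sum_pair hni, fi, fni]
    · unfold ff
      have e1 : (0 : ZMod p) * (0 ^ 2 - 1) = 0 := by ring
      have e2 : (1 : ZMod p) * (1 ^ 2 - 1) = 0 := by ring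
      have e3 : (-1 : ZMod p) * ((-1) ^ 2 - 1) = 0 := by ring
      rw [e1, e2, e3, chi_zero]; norm_num
    · simp only [Finset.mem_insert, Finset.mem_singleton, not_or]
      exact ⟨hin1.symm, hnin1.symm⟩
    · simp only [Finset.mem_insert, Finset.mem_singleton, not_or]
      exact ⟨hne1, hi1.symm, hni1.symm⟩
    · simp only [Finset.mem_insert, Finset.mem_singleton, not_or]
      refine ⟨zero_ne_one, ?_, hi0.symm, hni0.symm⟩
      intro h; exact one_ne_zero (show (1 : ZMod p) = 0 by linear_combination h)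
  set X : Finset (ZMod p) := univ \ Sp with hX
  have hXmem : ∀ t, t ∈ X ↔ t ≠ 0 ∧ t ≠ 1 ∧ t ≠ -1 ∧ t ≠ i ∧ t ≠ -i := by
    intro t
    rw [hX, Finset.mem_sdiff, hSp]
    simp only [Finset.mem_univ, true_and, Finset.mem_insert, Finset.mem_singleton, not_or]
  have hXcard : (X.card : ℤ) = 4 * n - 4 := by
    rw [hX, Finset.card_sdiff_of_subset (Finset.subset_univ _), Finset.card_univ, ZMod.card, hcardS,
      Nat.cast_sub (by omega), hn]
    push_cast; ring
  set Xm := X.filter (fun t => ff p t = -1) with hXm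
  have hval : ∀ t ∈ X, ff p t = 1 - 2 * (if ff p t = -1 then 1 else 0) := by
    intro t ht
    obtain ⟨t0, t1, t2, _, _⟩ := (hXmem t).1 ht
    have hne : t * (t ^ 2 - 1) ≠ 0 := by
      apply mul_ne_zero t0
      intro h
      have : (t - 1) * (t + 1) = 0 := by linear_combination h
      rcases mul_eq_zero.1 this with h | h
      · exact t1 (by linear_combination h)
      · exact t2 (by linear_combination h)
    rcases quadraticChar_dichotomy hne with h | h
    · have h' : ff p t = 1 := h
      rw [h']; norm_num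
    · have h' : ff p t = -1 := h
      rw [h']; norm_num
  have hsumX : ∑ t ∈ X, ff p t = (X.card : ℤ) - 2 * Xm.card := by
    rw [Finset.sum_congr rfl hval, Finset.sum_sub_distrib, Finset.sum_const, nsmul_eq_mul, mul_one,
      ← Finset.mul_sum, Finset.sum_boole]
  -- fibres of t^2 + t^-2
  have hfib : ∀ y ∈ Xm.image (fun t => t ^ 2 + (t⁻¹) ^ 2),
      (Xm.filter (fun t => t ^ 2 + (t⁻¹) ^ 2 = y)).card = 4 := by
    intro y hy
    rw [Finset.mem_image] at hy
    obtain ⟨t, ht, rfl⟩ := hy
    rw [hXm, Finset.mem_filter] at ht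
    obtain ⟨htX, htf⟩ := ht
    obtain ⟨t0, t1, t2, t3, t4⟩ := (hXmem t).1 htX
    have hti0 : t⁻¹ ≠ 0 := inv_ne_zero t0
    have htt : t * t⁻¹ = 1 := mul_inv_cancel₀ t0
    have hset : Xm.filter (fun s => s ^ 2 + (s⁻¹) ^ 2 = t ^ 2 + (t⁻¹) ^ 2) = {t, -t, t⁻¹, -t⁻¹} := by
      ext s
      rw [Finset.mem_filter, hXm, Finset.mem_filter]
      simp only [Finset.mem_insert, Finset.mem_singleton]
      constructor
      · rintro ⟨⟨hs, _⟩, hst⟩
        obtain ⟨s0, _⟩ := (hXmem s).1 hs
        have hss : s * s⁻¹ = 1 := mul_inv_cancel₀ s0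
        have h5 : (s - t) * (s + t) * (s * t - 1) * (s * t + 1) = 0 := by
          have h6 : (s * t) ^ 2 * (s ^ 2 + (s⁻¹) ^ 2) = (s * t) ^ 2 * (t ^ 2 + (t⁻¹) ^ 2) := by rw [hst]
          have e1 : (s * t) ^ 2 * (s ^ 2 + (s⁻¹) ^ 2) = (s * t) ^ 2 * s ^ 2 + t ^ 2 * (s * s⁻¹) ^ 2 := by ring
          have e2 : (s * t) ^ 2 * (t ^ 2 + (t⁻¹) ^ 2) = (s * t) ^ 2 * t ^ 2 + s ^ 2 * (t * t⁻¹) ^ 2 := by ring
          rw [e1, e2, hss, htt] at h6
          linear_combination h6
        rcases mul_eq_zero.1 h5 with h | h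
        · rcases mul_eq_zero.1 h with h | h
          · rcases mul_eq_zero.1 h with h | h
            · left; linear_combination h
            · right; left; linear_combination h
          · right; right; left
            exact eq_inv_of_mul_eq_one_left (by linear_combination h)
        · right; right; right
          have h7 : -s = t⁻¹ := eq_inv_of_mul_eq_one_left (by linear_combination -h)
          rw [← h7]; ring
      · have hmem : ∀ s : ZMod p, s ≠ 0 → s ≠ 1 → s ≠ -1 → s ≠ i → s ≠ -i → s ∈ X := by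
          intro s a b c d e; exact (hXmem s).2 ⟨a, b, c, d, e⟩
        have htneg : -t ∈ X := by
          apply hmem
          · exact neg_ne_zero.2 t0
          · intro h; apply t2; linear_combination -h
          · intro h; apply t1; linear_combination -h
          · intro h; apply t4; linear_combination -h
          · intro h; apply t3; linear_combination -h
        have htinv : t⁻¹ ∈ X := by
          apply hmem _ hti0
          · intro h; rw [h] at htt; apply t1; linear_combination htt
          · intro h; rw [h] at htt; apply t2; linear_combination -htt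
          · intro h; rw [h] at htt; apply t4; linear_combination (-i) * htt + t * hi2
          · intro h; rw [h] at htt; apply t3; linear_combination (i) * htt + t * hi2
        have htninv : -t⁻¹ ∈ X := by
          apply hmem _ (neg_ne_zero.2 hti0)
          · intro h; apply t2; linear_combination (-1) * htt + (-t) * h
          · intro h; apply t1; linear_combination htt + t * h
          · intro h; apply t3; linear_combination t * hi2 + i * htt + i * t * h
          · intro h; apply t4; linear_combination t * hi2 - i * htt - i * t * h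
        rintro (h | h | h | h)
        · rw [h]; exact ⟨⟨htX, htf⟩, rfl⟩
        · rw [h]
          refine ⟨⟨htneg, by rw [ff_neg hn]; exact htf⟩, ?_⟩
          rw [inv_neg]; ring
        · rw [h]
          refine ⟨⟨htinv, by rw [ff_inv hn t0]; exact htf⟩, ?_⟩
          rw [inv_inv]; ring
        · rw [h]
          refine ⟨⟨htninv, by rw [ff_neg hn, ff_inv hn t0]; exact htf⟩, ?_⟩
          rw [inv_neg, inv_inv]; ring
    rw [hset]
    have a1 : t ≠ -t := by
      intro h
      have : (2 : ZMod p) * t = 0 := by linear_combination h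
      rcases mul_eq_zero.1 this with h | h
      · exact h2 h
      · exact t0 h
    have ne1 : ∀ s : ZMod p, s * t = 1 → s = t → False := by
      intro s h1 h4
      rw [h4] at h1
      have : (t - 1) * (t + 1) = 0 := by linear_combination h1
      rcases mul_eq_zero.1 this with h | h
      · exact t1 (by linear_combination h)
      · exact t2 (by linear_combination h)
    have ne2 : ∀ s : ZMod p, s * t = 1 → s = -t → False := by
      intro s h1 h4
      rw [h4] at h1
      have : (t - i) * (t + i) = 0 := by linear_combination -h1 - hi2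
      rcases mul_eq_zero.1 this with h | h
      · exact t3 (by linear_combination h)
      · exact t4 (by linear_combination h)
    have htt' : t⁻¹ * t = 1 := inv_mul_cancel₀ t0
    rw [Finset.card_insert_of_notMem, Finset.card_insert_of_notMem, Finset.card_pair]
    · intro h
      have : (2 : ZMod p) * t⁻¹ = 0 := by linear_combination h
      rcases mul_eq_zero.1 this with h | h
      · exact h2 h
      · exact hti0 h
    · simp only [Finset.mem_insert, Finset.mem_singleton, not_or]
      refine ⟨fun h => ne2 _ htt' h.symm, fun h => ne1 _ htt' (by linear_combination h)⟩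
    · simp only [Finset.mem_insert, Finset.mem_singleton, not_or]
      refine ⟨a1, fun h => ne1 _ htt' h.symm, fun h => ne2 _ htt' (by linear_combination h)⟩
  have hcard4 : Xm.card = 4 * (Xm.image (fun t => t ^ 2 + (t⁻¹) ^ 2)).card := by
    rw [Finset.card_eq_sum_card_image (fun t => t ^ 2 + (t⁻¹) ^ 2) Xm, Finset.sum_congr rfl hfib,
      Finset.sum_const, smul_eq_mul, mul_comm]
  refine ⟨((Xm.image (fun t => t ^ 2 + (t⁻¹) ^ 2)).card : ℤ), ?_⟩
  have hJ : J p 1 = ∑ t ∈ Sp, ff p t + ∑ t ∈ X, ff p t := by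
    unfold J ff
    rw [hX, add_comm, Finset.sum_sdiff (Finset.subset_univ Sp)]
  rw [hJ, hsumS, hsumX, hXcard, hcard4]
  push_cast; ring

/-- the Jacobsthal sum in terms of the representation. -/
lemma J_eq {n : ℕ} (hn : p = 4 * n + 1) (h3 : 3 < p) :
    ∃ a b : ℤ, J p 1 = 2 * a ∧ (p : ℤ) = a ^ 2 + b ^ 2 ∧ Even b ∧ a % 4 = (2 * n - 1) % 4 := by
  obtain ⟨k, hk⟩ := J_one_mod hn h3
  obtain ⟨ν, hν⟩ := J_norm hn h3
  set a : ℤ := 2 * n - 1 - 4 * k with ha
  have hJ : J p 1 = 2 * a := by rw [hk, ha]; ring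
  set c := J p ν with hc
  have h1 : c ^ 2 = 4 * (p - a ^ 2) := by rw [hJ] at hν; linear_combination hν
  have hpn : (p : ℤ) = 4 * n + 1 := by exact_mod_cast hn
  -- p - a^2 is divisible by 4
  have h4 : (p : ℤ) - a ^ 2 = 4 * (n - ((n - 2 * k) * (n - 2 * k) * 1 - (n - 2 * k))) := by
    rw [hpn, ha]; ring
  have h5 : (16 : ℤ) ∣ c ^ 2 := ⟨n - ((n - 2 * k) * (n - 2 * k) * 1 - (n - 2 * k)), by rw [h1, h4]; ring⟩
  have h6 : (4 : ℤ) ∣ c := by
    have : (4 : ℤ) ^ 2 ∣ c ^ 2 := by norm_num; exact h5
    exact (Int.pow_dvd_pow_iff (by norm_num)).1 this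
  obtain ⟨d, hd⟩ := h6
  refine ⟨a, 2 * d, hJ, ?_, ⟨d, by ring⟩, ?_⟩
  · rw [hd] at h1
    have : 4 * ((p : ℤ) - (a ^ 2 + (2 * d) ^ 2)) = 0 := by linear_combination -h1
    linarith
  · rw [ha]; omega

/-- uniqueness of the representation. -/
lemma sq_eq_of_rep {P x y a b : ℤ} (hP : Prime P) (hP0 : 0 < P) (h1 : P = x ^ 2 + y ^ 2)
    (h2 : P = a ^ 2 + b ^ 2) (hx : Odd x) (ha : Odd a) (hy : Even y) (hb : Even b) :
    a ^ 2 = x ^ 2 := by
  have hdvd : P ∣ (a * x - b * y) * (a * x + b * y) := by
    refine ⟨-P + (a ^ 2 + x ^ 2), ?_⟩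
    have e1 : b ^ 2 = P - a ^ 2 := by linarith
    have e2 : y ^ 2 = P - x ^ 2 := by linarith
    have : (a * x - b * y) * (a * x + b * y) = a ^ 2 * x ^ 2 - b ^ 2 * y ^ 2 := by ring
    rw [this, e1, e2]; ring
  have key : ∀ b' : ℤ, Even b' → P = a ^ 2 + b' ^ 2 → P ∣ a * x - b' * y → a ^ 2 = x ^ 2 := by
    intro b' hb' h2' hd
    have hid : (a * x - b' * y) ^ 2 + (a * y + b' * x) ^ 2 = P ^ 2 := by
      have : P ^ 2 = (a ^ 2 + b' ^ 2) * (x ^ 2 + y ^ 2) := by rw [← h1, ← h2']; ring
      rw [this]; ring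
    obtain ⟨w, hw⟩ := hd
    have hodd : Odd (a * x - b' * y) := (ha.mul hx).sub_even (hb'.mul_right y)
    have hw0 : w ≠ 0 := by
      intro h0
      rw [h0, mul_zero] at hw
      rw [hw] at hodd
      simp at hodd
    have hw1 : 1 ≤ w ^ 2 := by
      have : 0 < w ^ 2 := by positivity
      omega
    have h3 : (a * y + b' * x) ^ 2 = 0 := by
      have h4 : (a * y + b' * x) ^ 2 = P ^ 2 * (1 - w ^ 2) := by
        rw [hw] at hid; linear_combination hid
      have h5 : P ^ 2 * (1 - w ^ 2) ≤ 0 := by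
        apply mul_nonpos_of_nonneg_of_nonpos (by positivity) (by linarith)
      have h6 := sq_nonneg (a * y + b' * x)
      linarith
    have h7 : a * y + b' * x = 0 := by simpa using h3
    have h8 : P * (a ^ 2 - x ^ 2) = 0 := by
      have e1 : a ^ 2 * P = a ^ 2 * x ^ 2 + (a * y) ^ 2 := by rw [h1]; ring
      have e2 : x ^ 2 * P = x ^ 2 * a ^ 2 + (b' * x) ^ 2 := by
        calc x ^ 2 * P = x ^ 2 * (a ^ 2 + b' ^ 2) := by rw [← h2']
          _ = _ := by ring
      have e3 : (a * y) ^ 2 = (b' * x) ^ 2 := by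
        have : a * y = -(b' * x) := by linarith
        rw [this]; ring
      linear_combination e1 - e2 + e3
    rcases mul_eq_zero.1 h8 with h | h
    · omega
    · linarith
  rcases hP.dvd_or_dvd hdvd with h | h
  · exact key b hb h2 h
  · apply key (-b) hb.neg (by rw [h2]; ring)
    have : a * x - -b * y = a * x + b * y := by ring
    rw [this]; exact h

/-- the Jacobsthal sum for any representation. -/
lemma J_rep {n : ℕ} (hn : p = 4 * n + 1) (h3 : 3 < p) {x y : ℤ} (hx : x % 4 = 1) (hy : Even y)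
    (hxy : (p : ℤ) = x ^ 2 + y ^ 2) : J p 1 = -(-1) ^ n * (2 * x) := by
  obtain ⟨a, b, hJ, hab, hb, ha4⟩ := J_eq hn h3
  have hPp : Prime (p : ℤ) := Nat.prime_iff_prime_int.1 hp.out
  have hxo : Odd x := by rw [Int.odd_iff]; omega
  have hao : Odd a := by rw [Int.odd_iff]; omega
  have hsq := sq_eq_of_rep hPp (by exact_mod_cast hp.out.pos) hxy hab hxo hao hy hb
  rw [hJ]
  rcases sq_eq_sq_iff_eq_or_eq_neg.1 hsq with h | h
  · rcases Nat.even_or_odd n with hn2 | hn2
    · obtain ⟨m, hm⟩ := hn2; omega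
    · rw [hn2.neg_one_pow, h]; ring
  · rcases Nat.even_or_odd n with hn2 | hn2
    · rw [hn2.neg_one_pow, h]; ring
    · obtain ⟨m, hm⟩ := hn2; omega

/-- existence of the representation -/
lemma exists_rep {n : ℕ} (hn : p = 4 * n + 1) (h3 : 3 < p) :
    ∃ x y : ℤ, x % 4 = 1 ∧ Even y ∧ (p : ℤ) = x ^ 2 + y ^ 2 := by
  obtain ⟨a, b, _, hab, hb, ha4⟩ := J_eq hn h3
  rcases Nat.even_or_odd n with hn2 | hn2
  · obtain ⟨m, hm⟩ := hn2
    exact ⟨-a, b, by omega, hb, by rw [hab]; ring⟩
  · obtain ⟨m, hm⟩ := hn2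
    exact ⟨a, b, by omega, hb, hab⟩

end

end Pool.Agent.Helper9.SC
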