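import Mathlib
import Pool.Agent.Helper9.SC.Eval
import Pool.Agent.Helper9.SC.Jacob2

/-!
Teichmüller representatives modulo `p ^ 2` and power sums.
-/

open Finset

namespace Pool.Agent.Helper9.SC

section

variable {p : ℕ} [hp : Fact p.Prime]

/-- reduction modulo `p` -/
noncomputable def pr (p : ℕ) : RR p →+* ZMod p := ZMod.castHom (Dvd.intro _ (pow_two p).symm : p ∣ p ^ 2) (ZMod p)

lemma pr_eq_zero {z : RR p} (h : pr p z = 0) : ∃ c : RR p, z = p * c := by
  have : NeZero (p ^ 2) := ⟨pow_ne_zero 2 hp.out.ne_zero⟩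
  have h1 : z = ((z.val : ℕ) : RR p) := (ZMod.natCast_zmod_val z).symm
  rw [h1, map_natCast, ZMod.natCast_eq_zero_iff] at h
  obtain ⟨c, hc⟩ := h
  refine ⟨c, ?_⟩
  rw [h1, hc]; push_cast; rfl

lemma pr_eq {z w : RR p} (h : pr p z = pr p w) : ∃ c : RR p, z = w + p * c := by
  have : pr p (z - w) = 0 := by rw [map_sub, h, sub_self]
  obtain ⟨c, hc⟩ := pr_eq_zero this
  exact ⟨c, by linear_combination hc⟩

lemma lin_pow (a b : RR p) (m : ℕ) : (a + p * b) ^ (m + 1) = a ^ (m + 1) + (m + 1) * a ^ m * (p * b) := by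
  have hpp := p_sq (p := p)
  induction m with
  | zero => simp
  | succ m ih =>
    rw [pow_succ, ih]
    push_cast
    rw [pow_succ (n := m + 1), pow_succ (n := m)]
    linear_combination ((m + 1) * a ^ m * b ^ 2) * hpp

lemma pow_p_eq {z w : RR p} (h : pr p z = pr p w) : z ^ p = w ^ p := by
  obtain ⟨c, hc⟩ := pr_eq h
  obtain ⟨m, hm⟩ : ∃ m, p = m + 1 := ⟨p - 1, by have := hp.out.pos; omega⟩
  have hpp := p_sq (p := p)
  rw [hc]
  have h1 := lin_pow w c m
  have h2 : ((m : RR p) + 1) = p := by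
    have := congrArg (Nat.cast : ℕ → RR p) hm
    push_cast at this
    rw [this]
  rw [← hm, h2] at h1
  rw [h1]
  linear_combination (w ^ m * c) * hpp

lemma isUnit_of_pr {z : RR p} (h : pr p z ≠ 0) : IsUnit z := by
  have : NeZero (p ^ 2) := ⟨pow_ne_zero 2 hp.out.ne_zero⟩
  have h1 : z = ((z.val : ℕ) : RR p) := (ZMod.natCast_zmod_val z).symm
  rw [h1]
  apply isUnit_nat
  intro hd
  apply h
  rw [h1, map_natCast, ZMod.natCast_eq_zero_iff]
  exact hd

/-- the Teichmüller representative -/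
noncomputable def tau (p : ℕ) (t : ZMod p) : RR p := ((t.val : ℕ) : RR p) ^ p

lemma tau_of_pr {z : RR p} {t : ZMod p} (h : pr p z = t) : tau p t = z ^ p := by
  unfold tau
  apply pow_p_eq
  rw [h, map_natCast]
  exact ZMod.natCast_zmod_val t

lemma pr_tau (t : ZMod p) : pr p (tau p t) = t := by
  unfold tau
  rw [map_pow, map_natCast, ZMod.pow_card]
  exact ZMod.natCast_zmod_val t

lemma tau_pow (t : ZMod p) : tau p t ^ p = tau p t := (tau_of_pr (pr_tau t)).symm

lemma tau_mul (s t : ZMod p) : tau p (s * t) = tau p s * tau p t := by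
  rw [tau_of_pr (z := tau p s * tau p t) (by rw [map_mul, pr_tau, pr_tau]), mul_pow, tau_pow, tau_pow]

lemma tau_zero : tau p 0 = 0 := by
  rw [tau_of_pr (z := 0) (map_zero _), zero_pow hp.out.ne_zero]

lemma tau_one : tau p 1 = 1 := by
  rw [tau_of_pr (z := 1) (map_one _), one_pow]

lemma tau_pow' (t : ZMod p) (m : ℕ) : tau p (t ^ m) = tau p t ^ m := by
  induction m with
  | zero => rw [pow_zero, pow_zero, tau_one]
  | succ m ih => rw [pow_succ, tau_mul, ih]; exact (pow_succ _ _).symm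

lemma tau_card {t : ZMod p} (ht : t ≠ 0) : tau p t ^ (p - 1) = 1 := by
  rw [← tau_pow', ZMod.pow_card_sub_one_eq_one ht, tau_one]

/-- power sums of Teichmüller representatives -/
lemma sum_tau {m : ℕ} (hm : 1 ≤ m) :
    ∑ t : ZMod p, tau p t ^ m = if (p - 1) ∣ m then (p : RR p) - 1 else 0 := by
  classical
  split_ifs with h
  · obtain ⟨k, hk⟩ := h
    rw [← Finset.add_sum_erase _ _ (Finset.mem_univ (0 : ZMod p)), tau_zero, zero_pow (by omega), zero_add]
    have : ∀ t ∈ univ.erase (0 : ZMod p), tau p t ^ m = 1 := by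
      intro t ht
      rw [hk, pow_mul, tau_card (Finset.ne_of_mem_erase ht), one_pow]
    rw [Finset.sum_congr rfl this, Finset.sum_const, Finset.card_erase_of_mem (Finset.mem_univ _),
      Finset.card_univ, ZMod.card, nsmul_eq_mul, mul_one, Nat.cast_sub hp.out.one_lt.le]
    push_cast; ring
  · -- choose a generator
    obtain ⟨g, hg⟩ := IsCyclic.exists_generator (α := (ZMod p)ˣ)
    have hgm : g ^ m ≠ 1 := by
      intro h1
      apply h
      have h2 := orderOf_dvd_of_pow_eq_one h1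
      have h3 : orderOf g = p - 1 := by
        rw [orderOf_eq_card_of_forall_mem_zpowers hg, Nat.card_eq_fintype_card, ZMod.card_units]
      rwa [h3] at h2
    have hgm' : ((g : ZMod p)) ^ m ≠ 1 := by
      intro h1
      apply hgm
      apply Units.ext
      push_cast
      exact h1
    have h1 : ∑ t : ZMod p, tau p t ^ m = tau p (g : ZMod p) ^ m * ∑ t : ZMod p, tau p t ^ m := by
      rw [Finset.mul_sum]
      conv_lhs => rw [← Equiv.sum_comp (Equiv.mulLeft₀ (g : ZMod p) g.ne_zero) (fun t => tau p t ^ m)]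
      apply Finset.sum_congr rfl
      intro t _
      show tau p ((g : ZMod p) * t) ^ m = _
      rw [tau_mul, mul_pow]
    have h2 : IsUnit (tau p (g : ZMod p) ^ m - 1) := by
      apply isUnit_of_pr
      rw [map_sub, map_pow, pr_tau, map_one]
      exact sub_ne_zero.2 hgm'
    apply h2.mul_left_cancel
    linear_combination -h1

/-- inverse modulo `p ^ 2` -/
noncomputable def nu (p l : ℕ) : RR p := ((l : RR p))⁻¹

lemma mul_nu {l : ℕ} (hl : ¬ p ∣ l) : (l : RR p) * nu p l = 1 := by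
  unfold nu
  apply ZMod.coe_mul_inv_eq_one
  exact Nat.Coprime.pow_right 2 (Nat.coprime_comm.1 ((Nat.Prime.coprime_iff_not_dvd hp.out).2 hl))

lemma red_nu {l : ℕ} (hl : ¬ p ∣ l) : Red p (1 / (l : ℚ)) (nu p l) := by
  have := (Red.nat (p := p) 1).div_nat hl (r' := nu p l) (by rw [mul_comm, mul_nu hl]; simp)
  simpa using this

lemma choose_pred {j : ℕ} (hj : j < p) : (((p - 1).choose j : ℕ) : ZMod p) = (-1) ^ j := by
  induction j with
  | zero => simp
  | succ j ih =>
    have h1 := Nat.choose_succ_right_eq (p - 1) j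
    have h2 := congrArg (Nat.cast : ℕ → ZMod p) h1
    rw [Nat.cast_mul, Nat.cast_mul, ih (by omega), Nat.cast_sub (by omega),
      Nat.cast_sub hp.out.one_lt.le, ZMod.natCast_self] at h2
    have h3 : ((j + 1 : ℕ) : ZMod p) ≠ 0 := by
      rw [Ne, ZMod.natCast_eq_zero_iff]
      exact not_dvd_of_lt (by omega) hj
    apply mul_right_cancel₀ h3
    rw [h2]; push_cast; ring

/-- `C(p-1,j) = (-1)^j` modulo `p` -/
lemma p_choose_pred {j : ℕ} (hj : j < p) : (p : RR p) * ((p - 1).choose j : ℕ) = p * (-1) ^ j := by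
  have := pmul_eq (p := p) (a := ((p - 1).choose j : ℕ)) (b := (-1) ^ j)
    (by push_cast; exact choose_pred hj)
  push_cast at this
  exact this

/-- `C(p,r) = p ν_r (-1)^(r-1)` modulo `p^2` -/
lemma choose_p {r : ℕ} (h1 : 1 ≤ r) (h2 : r < p) :
    ((p.choose r : ℕ) : RR p) = (-1) ^ (r + 1) * (p * nu p r) := by
  have hr : ¬ p ∣ r := not_dvd_of_lt (by omega) h2
  apply (isUnit_nat (p := p) hr).mul_right_cancel
  obtain ⟨k, rfl⟩ : ∃ k, r = k + 1 := ⟨r - 1, by omega⟩
  have h3 := Nat.add_one_mul_choose_eq (p - 1) k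
  rw [Nat.sub_add_cancel hp.out.one_lt.le] at h3
  have h4 := congrArg (Nat.cast : ℕ → RR p) h3
  rw [Nat.cast_mul, Nat.cast_mul, p_choose_pred (by omega)] at h4
  rw [← h4]
  have h5 := mul_nu (p := p) hr
  have : ((-1 : RR p)) ^ (k + 1 + 1) = (-1) ^ k := by ring
  rw [this]
  linear_combination (-(p : RR p) * (-1) ^ k) * h5

/-- the truncated logarithm -/
noncomputable def GG (p : ℕ) (z : RR p) : RR p := ∑ r ∈ Ico 1 p, nu p r * z ^ r

lemma sub_one_pow_p (h3 : 3 < p) (z : RR p) : (z - 1) ^ p = z ^ p - 1 + p * GG p z := by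
  have hodd : Odd p := hp.out.odd_of_ne_two (by omega)
  rw [sub_eq_add_neg, add_pow, Finset.sum_range_succ, Nat.choose_self, Nat.sub_self, pow_zero]
  rw [Finset.range_eq_Ico, Finset.sum_eq_sum_Ico_succ_bot hp.out.pos, Nat.choose_zero_right,
    Nat.sub_zero, pow_zero, hodd.neg_one_pow]
  have h : ∑ k ∈ Ico (0 + 1) p, z ^ k * (-1) ^ (p - k) * (p.choose k : RR p) = p * GG p z := by
    unfold GG
    rw [Finset.mul_sum]
    apply Finset.sum_congr rfl
    intro r hr
    rw [Finset.mem_Ico] at hr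
    have h2 := choose_p (p := p) (r := r) (by omega) hr.2
    rw [h2]
    have h4 : ((-1 : RR p)) ^ (p - r) * (-1) ^ (r + 1) = 1 := by
      rw [← pow_add, show p - r + (r + 1) = p + 1 by omega]
      exact hodd.add_one.neg_one_pow
    linear_combination (z ^ r * (p * nu p r)) * h4
  rw [h]
  push_cast
  ring

lemma tau_sq_sub_one_pow (h3 : 3 < p) (t : ZMod p) :
    (tau p t ^ 2 - 1) ^ p = tau p t ^ 2 - 1 + p * GG p (tau p t ^ 2) := by
  rw [sub_one_pow_p h3, ← pow_mul, mul_comm 2 p, pow_mul, tau_pow]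

/-- the quadratic character modulo `p ^ 2`. -/
lemma chi_tau {n : ℕ} (hn : p = 4 * n + 1) (h3 : 3 < p) (t : ZMod p) :
    ((chi p t : ℤ) : RR p) = tau p t ^ (2 * n) := by
  have h1 : (((chi p t : ℤ)) : ZMod p) = t ^ (2 * n) := by
    have := quadraticChar_eq_pow_of_char_ne_two' (ringChar_ne_two h3) t
    rw [ZMod.card, show p / 2 = 2 * n by omega] at this
    exact this
  rw [← tau_pow', tau_of_pr (z := ((chi p t : ℤ) : RR p)) (by rw [map_intCast, h1])]
  have hodd : Odd p := hp.out.odd_of_ne_two (by omega)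
  by_cases ht : t = 0
  · rw [ht, chi_zero, Int.cast_zero, zero_pow hp.out.ne_zero]
  · rcases quadraticChar_dichotomy ht with h | h
    · have h' : chi p t = 1 := h
      rw [h', Int.cast_one, one_pow]
    · have h' : chi p t = -1 := h
      rw [h', Int.cast_neg, Int.cast_one, hodd.neg_one_pow]

/-- the summand of the Jacobsthal sum modulo `p ^ 2`. -/
lemma summand {n : ℕ} (hn : p = 4 * n + 1) (h3 : 3 < p) (t : ZMod p) :
    ((chi p (t * (t ^ 2 - 1)) : ℤ) : RR p) = tau p t ^ (2 * n) * (tau p t ^ 2 - 1) ^ (2 * n) +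
      2 * n * p * (tau p t ^ (2 * n) * (tau p t ^ 2 - 1) ^ (2 * n - 1) * GG p (tau p t ^ 2)) := by
  have hn1 : 1 ≤ n := by omega
  rw [chi_tau hn h3, tau_of_pr (z := tau p t * (tau p t ^ 2 - 1)) (by
    rw [map_mul, map_sub, map_pow, pr_tau, map_one]), mul_pow, tau_pow, tau_sq_sub_one_pow h3, mul_pow]
  obtain ⟨m, hm⟩ : ∃ m, 2 * n = m + 1 := ⟨2 * n - 1, by omega⟩
  rw [hm, lin_pow, show m + 1 - 1 = m by omega]
  have : (2 * (n : RR p)) = m + 1 := by
    have := congrArg (Nat.cast : ℕ → RR p) hm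
    push_cast at this; exact this
  rw [this]
  ring

end

end Pool.Agent.Helper9.SC
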