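import Mathlib
import Pool.Agent.Helper9.SC.Teich
import Pool.Agent.Helper9.SC.Binom

/-!
The theorem of Chowla, Dwork and Evans.
-/

open Finset

namespace Pool.Agent.Helper9.SC

section

variable {p : ℕ} [hp : Fact p.Prime]

lemma expand {e M : ℕ} (he : 1 ≤ e) :
    ∑ t : ZMod p, tau p t ^ e * (tau p t ^ 2 - 1) ^ M =
      ∑ j ∈ range (M + 1), (M.choose j : RR p) * (-1) ^ (M - j) *
        (if (p - 1) ∣ (e + 2 * j) then (p : RR p) - 1 else 0) := by
  have h : ∀ t : ZMod p, tau p t ^ e * (tau p t ^ 2 - 1) ^ M =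
      ∑ j ∈ range (M + 1), (M.choose j : RR p) * (-1) ^ (M - j) * tau p t ^ (e + 2 * j) := by
    intro t
    rw [sub_eq_add_neg, add_pow, Finset.mul_sum]
    apply Finset.sum_congr rfl
    intro j _
    rw [pow_add, pow_mul]
    ring
  rw [Finset.sum_congr rfl (fun t _ => h t), Finset.sum_comm]
  apply Finset.sum_congr rfl
  intro j _
  rw [← Finset.mul_sum, sum_tau (by omega)]

lemma first_part {n : ℕ} (hn : p = 4 * n + 1) (h3 : 3 < p) :
    ∑ t : ZMod p, tau p t ^ (2 * n) * (tau p t ^ 2 - 1) ^ (2 * n) =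
      ((2 * n).choose n : RR p) * (-1) ^ n * ((p : RR p) - 1) := by
  rw [expand (by omega), Finset.sum_eq_single n]
  · rw [if_pos (by rw [show p - 1 = 4 * n by omega]; exact ⟨1, by ring⟩), show 2 * n - n = n by omega]
  · intro j hj hjn
    rw [Finset.mem_range] at hj
    rw [if_neg, mul_zero]
    rw [show p - 1 = 4 * n by omega]
    rintro ⟨c, hc⟩
    have hn0 : 0 < n := by omega
    have hc2 : c < 2 := by
      by_contra hcon
      have : 4 * n * 2 ≤ 4 * n * c := Nat.mul_le_mul_left _ (by omega)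
      omega
    interval_cases c <;> omega
  · intro h
    exact absurd (Finset.mem_range.2 (by omega)) h

/-- inner sums -/
noncomputable def WW (p n q : ℕ) : RR p :=
  ∑ r ∈ Ico 1 p, if (4 * n) ∣ (2 * n + 2 * r + 2 * q) then nu p r else 0

lemma WW_eq {n q : ℕ} (hn : p = 4 * n + 1) (h3 : 3 < p) (hq : q < 2 * n) :
    WW p n q = nu p (3 * n - q) + if q < n then nu p (n - q) else nu p (5 * n - q) := by
  classical
  unfold WW
  rw [← Finset.sum_filter]
  have hn0 : 0 < n := by omega
  have key : ∀ r, 1 ≤ r → r < p → ((4 * n) ∣ (2 * n + 2 * r + 2 * q) ↔ r + q = n ∨ r + q = 3 * n ∨ r + q = 5 * n) := by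
    intro r h1 h2
    constructor
    · rintro ⟨c, hc⟩
      have hc4 : c < 4 := by
        by_contra hcon
        have : 4 * n * 4 ≤ 4 * n * c := Nat.mul_le_mul_left _ (by omega)
        omega
      interval_cases c <;> omega
    · rintro (h | h | h)
      · exact ⟨1, by omega⟩
      · exact ⟨2, by omega⟩
      · exact ⟨3, by omega⟩
  split_ifs with hqn
  · have hset : (Ico 1 p).filter (fun r => (4 * n) ∣ (2 * n + 2 * r + 2 * q)) = {3 * n - q, n - q} := by
      ext r
      rw [Finset.mem_filter, Finset.mem_Ico, Finset.mem_insert, Finset.mem_singleton]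
      constructor
      · rintro ⟨⟨h1, h2⟩, h⟩
        rw [key r h1 h2] at h
        omega
      · intro h
        have h1 : 1 ≤ r ∧ r < p := by omega
        refine ⟨h1, (key r h1.1 h1.2).2 ?_⟩
        omega
    rw [hset, Finset.sum_pair (by omega)]
  · have hset : (Ico 1 p).filter (fun r => (4 * n) ∣ (2 * n + 2 * r + 2 * q)) = {3 * n - q, 5 * n - q} := by
      ext r
      rw [Finset.mem_filter, Finset.mem_Ico, Finset.mem_insert, Finset.mem_singleton]
      constructor
      · rintro ⟨⟨h1, h2⟩, h⟩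
        rw [key r h1 h2] at h
        omega
      · intro h
        have h1 : 1 ≤ r ∧ r < p := by omega
        refine ⟨h1, (key r h1.1 h1.2).2 ?_⟩
        omega
    rw [hset, Finset.sum_pair (by omega)]

lemma second_part {n : ℕ} (hn : p = 4 * n + 1) (h3 : 3 < p) :
    (p : RR p) * ∑ t : ZMod p, (tau p t ^ (2 * n) * (tau p t ^ 2 - 1) ^ (2 * n - 1) * GG p (tau p t ^ 2)) =
      p * ∑ q ∈ range (2 * n), (-1) ^ q * ((2 * n - 1).choose q : RR p) * WW p n q := by
  have hpp := p_sq (p := p)
  have h1 : ∑ t : ZMod p, (tau p t ^ (2 * n) * (tau p t ^ 2 - 1) ^ (2 * n - 1) * GG p (tau p t ^ 2)) =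
      ∑ r ∈ Ico 1 p, nu p r * ∑ t : ZMod p, tau p t ^ (2 * n + 2 * r) * (tau p t ^ 2 - 1) ^ (2 * n - 1) := by
    unfold GG
    have : ∀ t : ZMod p, (tau p t ^ (2 * n) * (tau p t ^ 2 - 1) ^ (2 * n - 1) *
        ∑ r ∈ Ico 1 p, nu p r * (tau p t ^ 2) ^ r) =
        ∑ r ∈ Ico 1 p, nu p r * (tau p t ^ (2 * n + 2 * r) * (tau p t ^ 2 - 1) ^ (2 * n - 1)) := by
      intro t
      rw [Finset.mul_sum]
      apply Finset.sum_congr rfl
      intro r _
      rw [pow_add, pow_mul (tau p t) 2 r]
      ring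
    rw [Finset.sum_congr rfl (fun t _ => this t), Finset.sum_comm]
    apply Finset.sum_congr rfl
    intro r _
    rw [Finset.mul_sum]
  rw [h1]
  have h2 : ∀ r ∈ Ico 1 p, nu p r * ∑ t : ZMod p, tau p t ^ (2 * n + 2 * r) * (tau p t ^ 2 - 1) ^ (2 * n - 1) =
      ∑ q ∈ range (2 * n), ((2 * n - 1).choose q : RR p) * (-1) ^ (2 * n - 1 - q) *
        (((p : RR p) - 1) * if (4 * n) ∣ (2 * n + 2 * r + 2 * q) then nu p r else 0) := by
    intro r _
    rw [expand (by omega), Finset.mul_sum, show 2 * n - 1 + 1 = 2 * n by omega, show p - 1 = 4 * n by omega]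
    apply Finset.sum_congr rfl
    intro q _
    split_ifs
    · ring
    · ring
  rw [Finset.sum_congr rfl h2, Finset.sum_comm, Finset.mul_sum, Finset.mul_sum]
  apply Finset.sum_congr rfl
  intro q hq
  rw [Finset.mem_range] at hq
  rw [← Finset.mul_sum, ← Finset.mul_sum]
  show (p : RR p) * (((2 * n - 1).choose q : RR p) * (-1) ^ (2 * n - 1 - q) * (((p : RR p) - 1) * WW p n q)) = _
  have hs : (-1 : RR p) ^ (2 * n - 1 - q) * (-1) ^ q = -1 := by
    rw [← pow_add, show 2 * n - 1 - q + q = 2 * n - 1 by omega]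
    have : Odd (2 * n - 1) := ⟨n - 1, by omega⟩
    exact this.neg_one_pow
  have hs2 : (-1 : RR p) ^ q * (-1) ^ q = 1 := by rw [← mul_pow]; norm_num
  have hs3 : (-1 : RR p) ^ (2 * n - 1 - q) = -(-1) ^ q := by
    linear_combination ((-1 : RR p) ^ q) * hs - (-1 : RR p) ^ (2 * n - 1 - q) * hs2
  rw [hs3]
  linear_combination (-((2 * n - 1).choose q : RR p) * (-1) ^ q * WW p n q) * hpp

/-- the two sums appearing -/
noncomputable def R1 (p n : ℕ) : RR p := ∑ q ∈ range n, (-1) ^ q * ((2 * n - 1).choose q : RR p) * nu p (n - q)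

noncomputable def R2 (p n : ℕ) : RR p := ∑ q ∈ range (3 * n), (-1) ^ q * ((2 * n - 1).choose q : RR p) * nu p (3 * n - q)

lemma nu_refl {a b : ℕ} (ha : 0 < a) (hb : 0 < b) (hab : a + b = p) : (p : RR p) * nu p a = -(p * nu p b) := by
  have hpp := p_sq (p := p)
  have ha' : ¬ p ∣ a := not_dvd_of_lt ha (by omega)
  have hb' : ¬ p ∣ b := not_dvd_of_lt hb (by omega)
  have h1 := mul_nu (p := p) ha'
  have h2 := mul_nu (p := p) hb'
  have h3 : (a : RR p) + b = p := by exact_mod_cast congrArg (Nat.cast : ℕ → RR p) hab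
  -- p ν_a = p ν_a ν_b b ; p ν_b = p ν_a ν_b a
  linear_combination (-(p : RR p) * nu p a) * h2 - (p * nu p b) * h1 + (p * nu p a * nu p b) * h3 +
    (nu p a * nu p b) * hpp

lemma pW_sum {n : ℕ} (hn : p = 4 * n + 1) (h3 : 3 < p) :
    (p : RR p) * ∑ q ∈ range (2 * n), (-1) ^ q * ((2 * n - 1).choose q : RR p) * WW p n q =
      p * R2 p n + 2 * p * R1 p n := by
  have hn0 : 0 < n := by omega
  -- R2 truncated
  have e2 : R2 p n = ∑ q ∈ range (2 * n), (-1) ^ q * ((2 * n - 1).choose q : RR p) * nu p (3 * n - q) := by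
    unfold R2
    symm
    apply Finset.sum_subset
    · intro q hq; rw [Finset.mem_range] at hq ⊢; omega
    · intro q _ hq2
      rw [Finset.mem_range, not_lt] at hq2
      rw [Nat.choose_eq_zero_of_lt (by omega)]; simp
  -- second half
  have e3 : (p : RR p) * ∑ q ∈ range n, (-1) ^ (n + q) * ((2 * n - 1).choose (n + q) : RR p) * nu p (5 * n - (n + q)) =
      p * R1 p n := by
    unfold R1
    rw [Finset.mul_sum, Finset.mul_sum, ← Finset.sum_range_reflect]
    apply Finset.sum_congr rfl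
    intro q hq
    rw [Finset.mem_range] at hq
    have h1 : n + (n - 1 - q) = 2 * n - 1 - q := by omega
    rw [h1, Nat.choose_symm (by omega)]
    have h2 := nu_refl (p := p) (a := 5 * n - (2 * n - 1 - q)) (b := n - q) (by omega) (by omega) (by omega)
    have hs : (-1 : RR p) ^ (2 * n - 1 - q) * (-1) ^ q = -1 := by
      rw [← pow_add, show 2 * n - 1 - q + q = 2 * n - 1 by omega]
      have : Odd (2 * n - 1) := ⟨n - 1, by omega⟩
      exact this.neg_one_pow
    have hs2 : (-1 : RR p) ^ q * (-1) ^ q = 1 := by rw [← mul_pow]; norm_num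
    have hs3 : (-1 : RR p) ^ (2 * n - 1 - q) = -(-1) ^ q := by
      linear_combination ((-1 : RR p) ^ q) * hs - (-1 : RR p) ^ (2 * n - 1 - q) * hs2
    rw [hs3]
    linear_combination (-(-1 : RR p) ^ q * ((2 * n - 1).choose q : RR p)) * h2
  have h1 : ∑ q ∈ range (2 * n), (-1) ^ q * ((2 * n - 1).choose q : RR p) * WW p n q =
      ∑ q ∈ range (2 * n), ((-1) ^ q * ((2 * n - 1).choose q : RR p) * nu p (3 * n - q)) +
      ∑ q ∈ range (2 * n), ((-1) ^ q * ((2 * n - 1).choose q : RR p) *
        if q < n then nu p (n - q) else nu p (5 * n - q)) := by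
    rw [← Finset.sum_add_distrib]
    apply Finset.sum_congr rfl
    intro q hq
    rw [Finset.mem_range] at hq
    rw [WW_eq hn h3 hq]
    ring
  have h2 : ∑ q ∈ range (2 * n), ((-1) ^ q * ((2 * n - 1).choose q : RR p) *
        if q < n then nu p (n - q) else nu p (5 * n - q)) = R1 p n +
      ∑ q ∈ range n, (-1) ^ (n + q) * ((2 * n - 1).choose (n + q) : RR p) * nu p (5 * n - (n + q)) := by
    rw [show 2 * n = n + n by ring, Finset.sum_range_add]
    unfold R1
    congr 1
    · apply Finset.sum_congr rfl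
      intro q hq
      rw [Finset.mem_range] at hq
      rw [if_pos hq, show 2 * n - 1 = n + n - 1 by omega]
    · apply Finset.sum_congr rfl
      intro q _
      rw [if_neg (by omega)]
  rw [h1, h2, e2]
  linear_combination e3

/-- harmonic sums modulo `p ^ 2` -/
noncomputable def Hr (p m : ℕ) : RR p := ∑ i ∈ range m, nu p (i + 1)

lemma red_hh {m : ℕ} (hm : m < p) : Red p (hh m) (Hr p m) := by
  unfold hh Hr
  apply Red.sum
  intro i hi
  rw [Finset.mem_range] at hi
  have := red_nu (p := p) (l := i + 1) (not_dvd_of_lt (by omega) (by omega))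
  push_cast at this
  exact this

lemma red_sgn (q : ℕ) : Red p ((-1 : ℚ) ^ q) ((-1) ^ q) := by
  have := (Red.int (p := p) (-1)).pow q
  push_cast at this
  exact this

lemma red_aa {M m : ℕ} (hm : m < p) : Red p (aa M m)
    (∑ q ∈ range m, (-1) ^ q * (M.choose q : RR p) * nu p (m - q)) := by
  unfold aa
  apply Red.sum
  intro q hq
  rw [Finset.mem_range] at hq
  have h1 := red_nu (p := p) (l := m - q) (not_dvd_of_lt (by omega) (by omega))
  have h2 := ((red_sgn (p := p) q).mul (Red.nat (p := p) (M.choose q))).mul h1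
  rw [Nat.cast_sub hq.le] at h2
  rw [div_eq_mul_one_div]
  exact h2

lemma R1_eq {n : ℕ} (hn : p = 4 * n + 1) (h3 : 3 < p) :
    R1 p n = (-1) ^ (n + 1) * ((2 * n - 1).choose n : RR p) * (Hr p (2 * n - 1) - Hr p (n - 1)) := by
  have h1 := red_aa (p := p) (M := 2 * n - 1) (m := n) (by omega)
  rw [aa_small (2 * n - 1) n (by omega) (by omega), show 2 * n - 1 - n = n - 1 by omega] at h1
  have h2 := ((red_sgn (p := p) (n + 1)).mul (Red.nat (p := p) ((2 * n - 1).choose n))).mul
    ((red_hh (p := p) (m := 2 * n - 1) (by omega)).sub (red_hh (p := p) (m := n - 1) (by omega)))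
  exact h1.unique h2

lemma R2_eq {n : ℕ} (hn : p = 4 * n + 1) (h3 : 3 < p) :
    R2 p n * ((3 * n).factorial : ℕ) = -((2 * n - 1).factorial : ℕ) * (n.factorial : ℕ) := by
  have h1 := red_aa (p := p) (M := 2 * n - 1) (m := 3 * n) (by omega)
  rw [aa_big (2 * n - 1) (3 * n) (by omega), show 3 * n - 1 - (2 * n - 1) = n by omega] at h1
  have hodd : Odd (2 * n - 1) := ⟨n - 1, by omega⟩
  rw [hodd.neg_one_pow] at h1
  have h2 := h1.cross (c := ((3 * n).factorial : ℕ)) (z := -(((2 * n - 1).factorial * n.factorial : ℕ) : ℤ)) (by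
    have : ((3 * n).factorial : ℚ) ≠ 0 := by exact_mod_cast (3 * n).factorial_ne_zero
    push_cast
    field_simp)
  unfold R2
  push_cast at h2 ⊢
  rw [h2]; ring

lemma alt_eq {n : ℕ} (hn : p = 4 * n + 1) (h3 : 3 < p) :
    ∑ s ∈ range (2 * n), (-1) ^ s * nu p (s + 1) = Hr p (2 * n) - Hr p n := by
  have h1 : Red p (∑ s ∈ range (2 * n), (-1 : ℚ) ^ s / ((s : ℚ) + 1))
      (∑ s ∈ range (2 * n), (-1) ^ s * nu p (s + 1)) := by
    apply Red.sum
    intro s hs
    rw [Finset.mem_range] at hs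
    have h2 := red_nu (p := p) (l := s + 1) (not_dvd_of_lt (by omega) (by omega))
    push_cast at h2
    rw [div_eq_mul_one_div]
    exact (red_sgn s).mul h2
  rw [alt_harm] at h1
  exact h1.unique ((red_hh (p := p) (m := 2 * n) (by omega)).sub (red_hh (p := p) (m := n) (by omega)))

lemma sum_pairs (f : ℕ → RR p) (m : ℕ) :
    ∑ r ∈ range (2 * m), f r = ∑ s ∈ range m, (f (2 * s) + f (2 * s + 1)) := by
  induction m with
  | zero => simp
  | succ m ih =>
    rw [show 2 * (m + 1) = 2 * m + 1 + 1 by ring, Finset.sum_range_succ, Finset.sum_range_succ, ih,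
      Finset.sum_range_succ]
    ring

/-- `2 (-4)^n = 2 + p η`. -/
lemma four_pow {n : ℕ} (hn : p = 4 * n + 1) (h3 : 3 < p) :
    2 * (-4 : RR p) ^ n = 2 + p * (Hr p (2 * n) - Hr p n) := by
  have hpp := p_sq (p := p)
  have hodd : Odd p := hp.out.odd_of_ne_two (by omega)
  have hsq : IsSquare (-1 : ZMod p) := by
    rw [ZMod.exists_sq_eq_neg_one_iff]; omega
  obtain ⟨i0, hi0⟩ := hsq
  set i : RR p := tau p i0 with hi
  have hi2 : i ^ 2 = -1 := by
    rw [hi, pow_two, ← tau_mul, ← hi0, tau_of_pr (z := (-1 : RR p)) (by rw [map_neg, map_one]),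
      hodd.neg_one_pow]
  have hip : i ^ p = i := tau_pow i0
  have hip' : (-i) ^ p = -i := by rw [hodd.neg_pow, hip]
  have e1 := sub_one_pow_p (p := p) h3 i
  have e2 := sub_one_pow_p (p := p) h3 (-i)
  rw [hip] at e1
  rw [hip'] at e2
  have hpow : ∀ z : RR p, z ^ p = z ^ (4 * n + 1) := fun z => congrArg (fun m => z ^ m) hn
  have k1 : (i - 1) ^ p = (-4) ^ n * (i - 1) := by
    rw [hpow, pow_add, pow_mul, pow_one]
    have : (i - 1) ^ 4 = -4 := by
      have h1 : (i - 1) ^ 2 = -2 * i := by linear_combination hi2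
      have h2 : (i - 1) ^ 4 = ((i - 1) ^ 2) ^ 2 := by ring
      rw [h2, h1]; linear_combination 4 * hi2
    rw [this]
  have k2 : (-i - 1) ^ p = (-4) ^ n * (-i - 1) := by
    rw [hpow, pow_add, pow_mul, pow_one]
    have : (-i - 1) ^ 4 = -4 := by
      have h1 : (-i - 1) ^ 2 = 2 * i := by linear_combination hi2
      have h2 : (-i - 1) ^ 4 = ((-i - 1) ^ 2) ^ 2 := by ring
      rw [h2, h1]; linear_combination 4 * hi2
    rw [this]
  have hG : (p : RR p) * (GG p i + GG p (-i)) = -(p * (Hr p (2 * n) - Hr p n)) := by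
    unfold GG
    rw [← Finset.sum_add_distrib, Finset.sum_Ico_eq_sum_range, show p - 1 = 2 * (2 * n) by omega,
      sum_pairs, ← alt_eq hn h3, Finset.mul_sum, Finset.mul_sum, ← Finset.sum_neg_distrib]
    apply Finset.sum_congr rfl
    intro s hs
    rw [Finset.mem_range] at hs
    have z1 : i ^ (1 + 2 * s) + (-i) ^ (1 + 2 * s) = 0 := by
      have : Odd (1 + 2 * s) := ⟨s, by ring⟩
      rw [this.neg_pow]; ring
    have z2 : i ^ (1 + (2 * s + 1)) = -(-1) ^ s := by
      have : 1 + (2 * s + 1) = 2 * (s + 1) := by ring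
      rw [this, pow_mul, hi2, pow_add]; ring
    have z3 : (-i) ^ (1 + (2 * s + 1)) = -(-1) ^ s := by
      have : 1 + (2 * s + 1) = 2 * (s + 1) := by ring
      rw [this, pow_mul, neg_sq, hi2, pow_add]; ring
    have hs1 : ¬ p ∣ (s + 1) := not_dvd_of_lt (by omega) (by omega)
    have hs2 : ¬ p ∣ (1 + (2 * s + 1)) := not_dvd_of_lt (by omega) (by omega)
    have m1 := mul_nu (p := p) hs1
    have m2 := mul_nu (p := p) hs2
    push_cast at m1 m2
    -- 2 ν_{2s+2} = ν_{s+1}
    have m3 : 2 * nu p (1 + (2 * s + 1)) = nu p (s + 1) := by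
      linear_combination (nu p (s + 1)) * m2 - (2 * nu p (1 + (2 * s + 1))) * m1
    rw [z2, z3]
    linear_combination (p * nu p (1 + 2 * s)) * z1 - (p * (-1) ^ s) * m3
  linear_combination k1 + k2 - e1 - e2 - hG

/-- the Jacobsthal sum modulo `p ^ 2`. -/
lemma J_mod {n : ℕ} (hn : p = 4 * n + 1) (h3 : 3 < p) :
    ((J p 1 : ℤ) : RR p) * ((2 * n).choose n : ℕ) =
      -(-1) ^ n * (((2 * n).choose n : ℕ) ^ 2 * (2 - (-4) ^ n) + p) := by
  have hpp := p_sq (p := p)
  have hn0 : 0 < n := by omega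
  -- the sum
  have hJ : ((J p 1 : ℤ) : RR p) = ((2 * n).choose n : RR p) * (-1) ^ n * ((p : RR p) - 1) +
      2 * n * (p * R2 p n + 2 * p * R1 p n) := by
    rw [← pW_sum hn h3, ← second_part hn h3, ← first_part hn h3]
    unfold J
    rw [Int.cast_sum, Finset.sum_congr rfl (fun t _ => summand hn h3 t), Finset.sum_add_distrib,
      ← Finset.mul_sum]
    ring
  set C := (2 * n).choose n with hC
  set F := n.factorial with hF
  set F2 := (2 * n).factorial with hF2
  set F3 := (3 * n).factorial with hF3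
  set F2' := (2 * n - 1).factorial with hF2'
  have u : IsUnit (F : RR p) := isUnit_fac (by omega)
  have h4n : 4 * (n : RR p) = p - 1 := by
    have := congrArg (Nat.cast : ℕ → RR p) hn
    push_cast at this
    linear_combination -this
  have hCF : (F2 : RR p) = C * F * F := by
    have h1 := Nat.choose_mul_factorial_mul_factorial (show n ≤ 2 * n by omega)
    rw [show 2 * n - n = n by omega] at h1
    have h2 := congrArg (Nat.cast : ℕ → RR p) h1
    push_cast at h2
    exact h2.symm
  have hF22 : (F2 : RR p) = 2 * n * F2' := by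
    have : (2 * n).factorial = (2 * n) * (2 * n - 1).factorial := by
      rw [Nat.mul_factorial_pred (by omega)]
    have h2 := congrArg (Nat.cast : ℕ → RR p) this
    push_cast at h2
    exact h2
  have hCC : (C : RR p) = 2 * ((2 * n - 1).choose n : ℕ) := by
    have h1 : (2 * n).choose n = 2 * (2 * n - 1).choose n := by
      have h2 := Nat.choose_succ_succ (2 * n - 1) (n - 1)
      rw [Nat.succ_eq_add_one, Nat.succ_eq_add_one, show 2 * n - 1 + 1 = 2 * n by omega,
        show n - 1 + 1 = n by omega] at h2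
      have h4 := Nat.choose_symm (show n ≤ 2 * n - 1 by omega)
      rw [show 2 * n - 1 - n = n - 1 by omega] at h4
      rw [h2, h4]; ring
    have h2 := congrArg (Nat.cast : ℕ → RR p) h1
    push_cast at h2
    exact h2
  -- Wilson
  have hw := wilson (p := p)
  rw [show p - 1 = 4 * n by omega] at hw
  obtain ⟨E, hE⟩ := prodE (p := p) n
  have t1 := fac_top (p := p) (n := n) (by omega) hE
  rw [show p - 1 - n = 3 * n by omega, show p - 1 = 4 * n by omega] at t1
  obtain ⟨E2, hE2⟩ := prodE (p := p) (2 * n)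
  have t2 := fac_top (p := p) (n := 2 * n) (by omega) hE2
  rw [show p - 1 - 2 * n = 2 * n by omega, show p - 1 = 4 * n by omega] at t2
  set m : RR p := (-1) ^ n with hm
  have hm2 : m * m = 1 := by rw [hm, ← mul_pow]; norm_num
  have b1 : (p : RR p) * F3 * (m * F) = -p := by
    rw [← hw, t1]
    linear_combination (F3 * m * E) * hpp
  have b2 : (p : RR p) * (F2 : RR p) ^ 2 = -p := by
    have h1 : (p : RR p) * ((4 * n).factorial : ℕ) = p * F2 * ((-1) ^ (2 * n) * F2) := by
      rw [t2]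
      linear_combination (-(F2 : RR p) * (-1) ^ (2 * n) * E2) * hpp
    rw [hw] at h1
    have h2 : ((-1 : RR p)) ^ (2 * n) = 1 := by
      rw [pow_mul]; norm_num
    rw [h2] at h1
    linear_combination -h1
  -- R2
  have r2 := R2_eq hn h3
  have pR2 : (p : RR p) * R2 p n * C = 2 * m * p := by
    have e1 : (p : RR p) * R2 p n * F3 = 2 * p * F2 * F := by
      have h1 : 4 * (n : RR p) * (p * R2 p n * F3) = -2 * (p * F2 * F) := by
        rw [hF22]
        linear_combination (4 * n * p) * r2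
      rw [h4n] at h1
      linear_combination -h1 + (R2 p n * F3) * hpp
    have e2 : (p : RR p) * R2 p n = -(2 * m * p * F2 * F ^ 2) := by
      linear_combination (-m * F) * e1 + (R2 p n) * b1
    rw [e2]
    linear_combination (2 * m * p * F2) * hCF - 2 * m * b2
  -- R1
  have r1 := R1_eq hn h3
  have hpn : (p : RR p) * nu p n = -4 * p := by
    have h1 := mul_nu (p := p) (l := n) (not_dvd_of_lt hn0 (by omega))
    linear_combination (-4 * p) * h1 + (p * nu p n) * h4n + nu p n * hpp
  have hp2n : (p : RR p) * nu p (2 * n) = -2 * p := by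
    have h1 := mul_nu (p := p) (l := 2 * n) (not_dvd_of_lt (by omega) (by omega))
    push_cast at h1
    linear_combination (-2 * p) * h1 + (p * nu p (2 * n)) * h4n + nu p (2 * n) * hpp
  have hH1 : Hr p (2 * n) = Hr p (2 * n - 1) + nu p (2 * n) := by
    unfold Hr
    rw [show 2 * n = 2 * n - 1 + 1 by omega, Finset.sum_range_succ, show 2 * n - 1 + 1 - 1 = 2 * n - 1 by omega]
  have hH2 : Hr p n = Hr p (n - 1) + nu p n := by
    unfold Hr
    rw [show n = n - 1 + 1 by omega, Finset.sum_range_succ, show n - 1 + 1 - 1 = n - 1 by omega]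
  have h4 := four_pow hn h3
  have pR1 : 2 * (p : RR p) * R1 p n = -(m * C * (2 * (-4) ^ n - 2 - 2 * p)) := by
    have hm1 : (-1 : RR p) ^ (n + 1) = -m := by rw [hm, pow_succ]; ring
    have h5 : (p : RR p) * (Hr p (2 * n - 1) - Hr p (n - 1)) = 2 * (-4) ^ n - 2 - 2 * p := by
      linear_combination (-p) * hH1 + p * hH2 - h4 - hp2n + hpn
    rw [r1, hm1, hCC]
    linear_combination (-2 * m * ((2 * n - 1).choose n : RR p)) * h5
  -- conclusion
  have u2 : IsUnit (2 : RR p) := by
    have := isUnit_nat (p := p) (not_dvd_of_lt (k := 2) (by norm_num) (by omega))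
    simpa using this
  apply u2.mul_left_cancel
  rw [hJ]
  have h6 : (p : RR p) * ((-4) ^ n - 1) * 2 = 0 := by
    linear_combination p * h4 + (Hr p (2 * n) - Hr p n) * hpp
  have h7 : (p : RR p) * (p * R2 p n + 2 * p * R1 p n) = 0 := by
    linear_combination (R2 p n + 2 * R1 p n) * hpp
  linear_combination ((p * R2 p n + 2 * p * R1 p n) * C) * h4n + C * h7 - pR2 - C * pR1

end

end Pool.Agent.Helper9.SC
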