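import Mathlib
import Pool.Agent.Helper9.SC.Eval

/-!
The case `p = 1 mod 4`, up to the evaluation of the central binomial coefficient.
-/

open Finset

namespace Pool.Agent.Helper9.SC

section

variable {p : ℕ} [hp : Fact p.Prime]

lemma leg2_one {n : ℕ} (hn : p = 4 * n + 1) : legendreSym p 2 = (-1) ^ n := by
  rw [legendreSym.at_two (by omega), ZMod.χ₈_nat_eq_if_mod_eight]
  have h2 : p % 2 ≠ 0 := by omega
  rw [if_neg h2]
  rcases Nat.even_or_odd n with h | h
  · have h8 : (p % 8 = 1 ∨ p % 8 = 7) := by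
      obtain ⟨a, ha⟩ := h
      omega
    rw [if_pos h8, Even.neg_one_pow h]
  · have h8 : ¬ (p % 8 = 1 ∨ p % 8 = 7) := by
      obtain ⟨a, ha⟩ := h
      omega
    rw [if_neg h8, Odd.neg_one_pow h]

lemma D_int {n : ℕ} (hn : p = 4 * n + 1) : D n = ((∏ l ∈ range n, ((p : ℤ) - 3 * (l + 1)) : ℤ) : ℚ) := by
  unfold D
  rw [← Finset.prod_range_reflect]
  push_cast
  apply Finset.prod_congr rfl
  intro l hl
  rw [Finset.mem_range] at hl
  rw [show n - 1 - l = n - (l + 1) by omega, Nat.cast_sub (by omega), hn]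
  push_cast; ring

/-- `κ = C (1 - pη/2)` abstractly: for any `β` with `16 ^ n = 1 + p β`. -/
lemma one_mod {n : ℕ} (hn : p = 4 * n + 1) (hn1 : 1 ≤ n) {β : RR p} (hβ : (16 : RR p) ^ n = 1 + p * β) :
    ∃ X μ : RR p, Red p (A p) X ∧ Red p (2 * B p) (X + μ) ∧
      2 * X = (-1) ^ n * (legendreSym p 3 : ℤ) * ((2 * n).choose n : ℕ) * (2 - p * β) ∧
      μ * ((2 * n).choose n : ℕ) = (-1) ^ n * (legendreSym p 3 : ℤ) * p := by
  have h3 : 3 < p := by omega
  have hpp := p_sq (p := p)
  have hn3 : n % 3 ≠ 2 := by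
    intro h
    have h4 : 3 ∣ p := by omega
    rcases (Nat.dvd_prime hp.out).1 h4 with h5 | h5 <;> omega
  obtain ⟨X, Y, hA, hS1, hS3⟩ := A_red h3
  obtain ⟨cl1, cl2⟩ := closed1 n hn3
  rw [← hn] at cl1 cl2
  obtain ⟨μ, hU3, hB⟩ := B_red h3 cl2 hA hS1 hS3
  have h3p : 3 * p = 12 * n + 3 := by omega
  obtain ⟨cl3, cl4⟩ := closed2 n hn1
  rw [← h3p] at cl3 cl4
  rw [cl1] at hS1
  rw [cl3] at hS3
  rw [cl4] at hU3
  set F := n.factorial with hF
  set F2 := (2 * n).factorial with hF2
  set F3 := (3 * n).factorial with hF3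
  set F4 := (4 * n).factorial with hF4
  set F6 := (6 * n + 1).factorial with hF6
  have nF : (F : ℚ) ≠ 0 := by exact_mod_cast n.factorial_ne_zero
  have nF3 : (F3 : ℚ) ≠ 0 := by exact_mod_cast (3 * n).factorial_ne_zero
  have nF4 : (F4 : ℚ) ≠ 0 := by exact_mod_cast (4 * n).factorial_ne_zero
  have nD : D n ≠ 0 := (D_pos n).ne'
  -- three cross relations
  have c1 := hS1.cross (c := ((3 ^ n * F : ℕ) : ℤ) * ∏ l ∈ range n, ((p : ℤ) - 3 * (l + 1)))
    (z := ((F2 : ℕ) : ℤ)) (by
      push_cast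
      have := D_int (p := p) hn
      push_cast at this
      rw [← this]
      field_simp)
  have c3 := hS3.cross (c := ((729 ^ n * F4 * F : ℕ) : ℤ)) (z := ((16 ^ n * F3 * F2 : ℕ) : ℤ)) (by
      push_cast
      field_simp)
  have cU := hU3.cross (c := ((729 ^ n * F4 * F3 : ℕ) : ℤ)) (z := ((F6 * F : ℕ) : ℤ)) (by
      push_cast
      field_simp)
  have e6 : (F6 : RR p) = p * F4 * F2 := by
    have := fac_beyond (p := p) (2 * n)
    rw [show p + (2 * n) = 6 * n + 1 by omega, show p - 1 = 4 * n by omega] at this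
    exact this
  push_cast at c1 c3 cU
  rw [e6] at cU
  have u : IsUnit (F : RR p) := isUnit_fac (by omega)
  have u3 : IsUnit (F3 : RR p) := isUnit_fac (by omega)
  have u4 : IsUnit (F4 : RR p) := isUnit_fac (by omega)
  -- units 2 and 3
  have n3 : ¬ p ∣ 3 := not_dvd_of_lt (by norm_num) h3
  obtain ⟨θ, hθ⟩ := (isUnit_nat (p := p) n3).exists_left_inv
  push_cast at hθ
  obtain ⟨E, hE⟩ := prodE (p := p) n
  have t1 := fac_top (p := p) (n := n) (by omega) hE
  rw [show p - 1 - n = 3 * n by omega, show p - 1 = 4 * n by omega] at t1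
  have hD : ∏ l ∈ range n, ((p : RR p) - 3 * (l + 1)) = (-3) ^ n * (F - p * θ * E) := by
    rw [← hE θ]
    have h4 : ∀ l ∈ range n, ((p : RR p) - 3 * (l + 1)) = (-3) * (((l : RR p) + 1) - p * θ) := by
      intro l _
      linear_combination (-(p : RR p)) * hθ
    rw [Finset.prod_congr rfl h4, Finset.prod_mul_distrib, Finset.prod_const, Finset.card_range]
  rw [hD] at c1
  have hF4' : (F4 : RR p) = F3 * ((-1) ^ n * (F - p * E)) := t1
  set m : RR p := (-1) ^ n with hm
  have hm2 : m * m = 1 := by rw [hm, ← mul_pow]; norm_num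
  set g : RR p := 9 ^ n with hg
  have g3 : (3 : RR p) ^ n * (-3) ^ n = m * g := by
    rw [hm, hg, ← mul_pow, ← mul_pow]; norm_num
  have g729 : (729 : RR p) ^ n = g ^ 3 := by
    rw [hg, ← pow_mul, mul_comm n 3, pow_mul]; norm_num
  obtain ⟨f, hf⟩ := u.exists_left_inv
  set C := (2 * n).choose n with hC
  have hCF : (F2 : RR p) = C * F * F := by
    have h1 := Nat.choose_mul_factorial_mul_factorial (show n ≤ 2 * n by omega)
    rw [show 2 * n - n = n by omega] at h1
    have h2 := congrArg (Nat.cast : ℕ → RR p) h1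
    push_cast at h2
    exact h2.symm
  -- reduced relations
  have k1 : (X + p * Y) * (m * g) * (F - p * θ * E) = C * F := by
    apply u.mul_left_cancel
    linear_combination c1 + hCF + (-(X + p * Y) * F * (F - p * θ * E)) * g3
  have k3 : (X + 3 * p * Y) * (m * g ^ 3) * (F - p * E) = (1 + p * β) * C * F := by
    apply u.mul_left_cancel
    apply u3.mul_left_cancel
    rw [hF4', hβ, g729] at c3
    linear_combination c3 + (1 + p * β) * F3 * hCF
  -- Euler's criterion
  obtain ⟨c, hc⟩ := euler3 (p := p)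
  rw [show p / 2 = 2 * n by omega] at hc
  set s : RR p := ((legendreSym p 3 : ℤ) : RR p) with hs
  have hs2 : s ^ 2 = 1 := leg3_sq h3
  have hgs : g = s + p * c := by
    rw [hg, ← hc, pow_mul]; norm_num
  have hs3 : s ^ 3 = s := by rw [pow_succ, hs2, one_mul]
  -- invert
  have l1 : X + p * Y = C * (m * (s - p * c) * (1 + p * θ * (f * E))) := by
    have h1 : m * g * (F - p * θ * E) * (m * (s - p * c) * (1 + p * θ * (f * E)) * f) = 1 := by
      rw [hgs]
      linear_combination ((s + p * c) * (F - p * θ * E) * ((s - p * c) * (1 + p * θ * (f * E)) * f)) * hm2 +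
        ((s ^ 2 - p ^ 2 * c ^ 2) * (1 + p * θ * f * E - p * θ * E * f * 1 + 0)) * hf +
        ((s ^ 2 - p ^ 2 * c ^ 2) * (-θ ^ 2 * E ^ 2 * f ^ 2) + (- c ^ 2)) * hpp +
        hs2 + ((s ^ 2 - p ^ 2 * c ^ 2) * p * θ * f * E) * hf - 0 * hf
    have h2 : X + p * Y = ((X + p * Y) * (m * g) * (F - p * θ * E)) *
        (m * (s - p * c) * (1 + p * θ * (f * E)) * f) := by
      linear_combination (-(X + p * Y)) * h1
    rw [h2, k1]
    linear_combination (C * m * (s - p * c) * (1 + p * θ * (f * E))) * hf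
  have l3 : X + 3 * p * Y = (1 + p * β) * C * (m * (s - 3 * p * c) * (1 + p * (f * E))) := by
    have hg3 : g ^ 3 = s + 3 * p * c := by
      rw [hgs]
      linear_combination hs3 + 3 * p * c * hs2 + (3 * s * c ^ 2 + p * c ^ 3) * hpp
    have h1 : m * g ^ 3 * (F - p * E) * (m * (s - 3 * p * c) * (1 + p * (f * E)) * f) = 1 := by
      rw [hg3]
      linear_combination ((s + 3 * p * c) * (F - p * E) * ((s - 3 * p * c) * (1 + p * (f * E)) * f)) * hm2 +
        ((s ^ 2 - 9 * p ^ 2 * c ^ 2) * (1 + p * f * E - p * E * f * 1 + 0)) * hf +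
        ((s ^ 2 - 9 * p ^ 2 * c ^ 2) * (-E ^ 2 * f ^ 2) + (- 9 * c ^ 2)) * hpp +
        hs2 + ((s ^ 2 - 9 * p ^ 2 * c ^ 2) * p * f * E) * hf
    have h2 : X + 3 * p * Y = ((X + 3 * p * Y) * (m * g ^ 3) * (F - p * E)) *
        (m * (s - 3 * p * c) * (1 + p * (f * E)) * f) := by
      linear_combination (-(X + 3 * p * Y)) * h1
    rw [h2, k3]
    linear_combination ((1 + p * β) * C * m * (s - 3 * p * c) * (1 + p * (f * E))) * hf
  refine ⟨X, μ, hA, hB, ?_, ?_⟩
  · linear_combination 3 * l1 - l3 + C * m * s * p * f * E * hθ +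
      C * m * (-3 * c * θ * f * E + 3 * c * f * E - β * s * f * E + 3 * c * β +
        3 * p * c * β * f * E) * hpp
  · have hw := wilson (p := p)
    rw [show p - 1 = 4 * n by omega] at hw
    obtain ⟨E2, hE2⟩ := prodE (p := p) (2 * n)
    have t2 := fac_top (p := p) (n := 2 * n) (by omega) hE2
    rw [show p - 1 - 2 * n = 2 * n by omega, show p - 1 = 4 * n by omega] at t2
    have b1 : (p : RR p) * F3 * (m * F) = -p := by
      rw [← hw]
      show _ = (p : RR p) * (F4 : RR p)
      rw [hF4']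
      linear_combination (F3 * m * E) * hpp
    have b2 : (p : RR p) * (F2 : RR p) ^ 2 = -p := by
      have h1 : (p : RR p) * (F4 : RR p) = p * F2 * ((-1) ^ (2 * n) * F2) := by
        show (p : RR p) * ((4 * n).factorial : ℕ) = _
        rw [t2]
        linear_combination (-(F2 : RR p) * (-1) ^ (2 * n) * E2) * hpp
      rw [show (p : RR p) * (F4 : RR p) = -p from hw] at h1
      have h2 : ((-1 : RR p)) ^ (2 * n) = 1 := by
        rw [pow_mul]; norm_num
      rw [h2] at h1
      linear_combination -h1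
    have hpg : (p : RR p) * g ^ 3 = p * s := by
      rw [hgs]
      linear_combination p * hs3 + (3 * s ^ 2 * c + 3 * s * p * c ^ 2 + p ^ 2 * c ^ 3) * hpp
    have q1 : μ * (g ^ 3 * F3) = p * F2 * F := by
      apply u4.mul_left_cancel
      rw [g729] at cU
      linear_combination cU
    have n9 : ¬ p ∣ 9 := by
      intro h
      have h9 : (9 : ℕ) = 3 ^ 2 := by norm_num
      rw [h9] at h
      have := Nat.le_of_dvd (by norm_num) (hp.out.dvd_of_dvd_pow h)
      omega
    have u9 : IsUnit (g ^ 3) := by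
      have h9 : IsUnit (9 : RR p) := by simpa using isUnit_nat (p := p) n9
      exact (h9.pow n).pow 3
    apply u9.mul_left_cancel
    apply u3.mul_left_cancel
    apply u.mul_left_cancel
    linear_combination (C * F) * q1 - (p * F2) * hCF + b2 - m * s * F3 * F * hpg -
      m * p * F3 * F * hs2 - b1

end

end Pool.Agent.Helper9.SC
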