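import Mathlib
import Pool.Agent.Helper9.SC.Eval

/-!
The case `p = 3 mod 4`.
-/

open Finset

namespace Pool.Agent.Helper9.SC

section

variable {p : ℕ} [hp : Fact p.Prime]

lemma leg2_three {j : ℕ} (hj : p = 4 * j + 3) : legendreSym p 2 = (-1) ^ (j + 1) := by
  rw [legendreSym.at_two (by omega), ZMod.χ₈_nat_eq_if_mod_eight]
  have h2 : p % 2 ≠ 0 := by omega
  rw [if_neg h2]
  rcases Nat.even_or_odd j with h | h
  · have h8 : ¬ (p % 8 = 1 ∨ p % 8 = 7) := by
      obtain ⟨a, ha⟩ := h
      omega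
    rw [if_neg h8, Odd.neg_one_pow h.add_one]
  · have h8 : (p % 8 = 1 ∨ p % 8 = 7) := by
      obtain ⟨a, ha⟩ := h
      omega
    rw [if_pos h8, Even.neg_one_pow h.add_one]

lemma three_mod {j : ℕ} (hj : p = 4 * j + 3) (hj1 : 1 ≤ j) :
    ∃ r : RR p, Red p (A p) r ∧
      Red p ((legendreSym p 6 : ℚ) * (2 * p / (3 * ((2 * (j + 1)).choose (j + 1) : ℚ)))) r := by
  have h3 : 3 < p := by omega
  have hpp := p_sq (p := p)
  obtain ⟨X, Y, hA, hS1, hS3⟩ := A_red h3
  -- S p = 0
  have hSp : S p = 0 := by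
    rw [hj]
    apply closed4
    intro h
    have h4 : 3 ∣ p := by omega
    rcases (Nat.dvd_prime hp.out).1 h4 with h5 | h5 <;> omega
  rw [hSp] at hS1
  have hX : X + p * Y = 0 := by
    have := hS1.unique (Red.nat (p := p) 0 |> fun h => by simpa using h)
    exact this
  have hX3 : X + 3 * p * Y = -2 * X := by linear_combination 3 * hX
  rw [hX3] at hS3
  -- closed form
  have h3p : 3 * p = 12 * j + 9 := by omega
  rw [h3p, closed3 j hj1] at hS3
  set F6 := (6 * j + 4).factorial with hF6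
  set Fj := j.factorial with hFj
  set F3 := (3 * j + 2).factorial with hF3
  set F4 := (4 * j + 2).factorial with hF4
  set F2 := (2 * j + 1).factorial with hF2
  have c1 := hS3.cross (c := ((2 * (9 ^ (3 * j + 2) * F3 * F4) : ℕ) : ℤ)) (z := -((F6 * Fj : ℕ) : ℤ)) (by
    have n3 : (F3 : ℚ) ≠ 0 := by exact_mod_cast (3 * j + 2).factorial_ne_zero
    have n4 : (F4 : ℚ) ≠ 0 := by exact_mod_cast (4 * j + 2).factorial_ne_zero
    push_cast
    field_simp)
  have e6 : (F6 : RR p) = p * F4 * F2 := by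
    have := fac_beyond (p := p) (2 * j + 1)
    rw [show p + (2 * j + 1) = 6 * j + 4 by omega, show p - 1 = 4 * j + 2 by omega] at this
    exact this
  push_cast at c1
  rw [e6] at c1
  have u4 : IsUnit (F4 : RR p) := isUnit_fac (by omega)
  have c2 : 4 * X * (9 ^ (3 * j + 2) * F3) = p * F2 * Fj := by
    apply u4.mul_left_cancel
    linear_combination -c1
  -- X = p x0
  obtain ⟨x0, hx0⟩ : ∃ x0 : RR p, X = p * x0 := ⟨-Y, by linear_combination hX⟩
  -- Wilson
  have hw := wilson (p := p)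
  rw [show p - 1 = 4 * j + 2 by omega] at hw
  obtain ⟨E1, hE1⟩ := prodE (p := p) j
  have t1 := fac_top (p := p) (n := j) (by omega) hE1
  rw [show p - 1 - j = 3 * j + 2 by omega, show p - 1 = 4 * j + 2 by omega] at t1
  obtain ⟨E2, hE2⟩ := prodE (p := p) (2 * j + 1)
  have t2 := fac_top (p := p) (n := 2 * j + 1) (by omega) hE2
  rw [show p - 1 - (2 * j + 1) = 2 * j + 1 by omega, show p - 1 = 4 * j + 2 by omega] at t2
  have b1 : (p : RR p) * F3 * ((-1) ^ j * Fj) = -p := by
    rw [← hw]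
    show _ = (p : RR p) * ((4 * j + 2).factorial : ℕ)
    rw [t1]
    linear_combination (F3 * (-1) ^ j * E1) * hpp
  have b2 : (p : RR p) * (F2 : RR p) ^ 2 = p := by
    have h1 : (p : RR p) * ((4 * j + 2).factorial : ℕ) = p * F2 * ((-1) ^ (2 * j + 1) * F2) := by
      rw [t2]
      linear_combination (-(F2 : RR p) * (-1) ^ (2 * j + 1) * E2) * hpp
    rw [hw] at h1
    have h2 : ((-1 : RR p)) ^ (2 * j + 1) = -1 := by
      rw [pow_add, pow_mul]; norm_num
    rw [h2] at h1
    linear_combination h1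
  -- power of 3
  obtain ⟨c, hc⟩ := euler3 (p := p)
  rw [show p / 2 = 2 * j + 1 by omega] at hc
  set s : RR p := ((legendreSym p 3 : ℤ) : RR p) with hs
  have hs2 : s ^ 2 = 1 := leg3_sq h3
  have p9 : (p : RR p) * 9 ^ (3 * j + 2) = 3 * p * s := by
    have e9 : (9 : RR p) ^ (3 * j + 2) = 3 * (3 ^ (2 * j + 1)) ^ 3 := by
      rw [show (9 : RR p) = 3 ^ 2 by norm_num, ← pow_mul, ← pow_mul, ← pow_succ']
      congr 1; ring
    rw [e9, hc]
    have hs3 : s ^ 3 = s := by rw [pow_succ, hs2, one_mul]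
    linear_combination (9 * s ^ 2 * c + 9 * s * p * c ^ 2 + 3 * p ^ 2 * c ^ 3) * hpp + 3 * p * hs3
  -- the binomial coefficient
  set C := (2 * (j + 1)).choose (j + 1) with hC
  have d1 : (C : RR p) * ((j + 1) * Fj) ^ 2 = (2 * j + 2) * F2 := by
    have h1 := Nat.choose_mul_factorial_mul_factorial (show j + 1 ≤ 2 * (j + 1) by omega)
    rw [show 2 * (j + 1) - (j + 1) = j + 1 by omega, show 2 * (j + 1) = (2 * j + 1) + 1 by ring,
      Nat.factorial_succ, Nat.factorial_succ, ← show 2 * (j + 1) = (2 * j + 1) + 1 by ring] at h1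
    have h2 := congrArg (Nat.cast : ℕ → RR p) h1
    push_cast at h2
    rw [← hC] at h2
    linear_combination h2
  have p4 : (4 * (j + 1) : RR p) = p + 1 := by
    have : 4 * (j + 1) = p + 1 := by omega
    exact_mod_cast congrArg (Nat.cast : ℕ → RR p) this
  have d2 : (p : RR p) * C * (Fj : RR p) ^ 2 = 8 * p * F2 := by
    have h1 : (C : RR p) * ((4 * (j + 1)) * Fj) ^ 2 = 8 * (4 * (j + 1)) * F2 := by
      linear_combination 16 * d1
    rw [p4] at h1
    linear_combination p * h1 - (C * (Fj : RR p) ^ 2 * (p + 2) - 8 * F2) * hpp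
  -- combine
  have s2 := leg2_three (p := p) hj
  have s6 : ((legendreSym p 6 : ℤ) : RR p) = (-1) ^ (j + 1) * s := by
    rw [show (6 : ℤ) = 2 * 3 by norm_num, legendreSym.mul, s2]
    push_cast; rfl
  have main : X * (3 * C) = (-1) ^ (j + 1) * s * (2 * p) := by
    have u12 : IsUnit (4 : RR p) := by
      have : ¬ p ∣ 4 := by
        intro h
        have h4 : (4 : ℕ) = 2 ^ 2 := by norm_num
        rw [h4] at h
        have := Nat.le_of_dvd (by norm_num) (hp.out.dvd_of_dvd_pow h)
        omega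
      simpa using isUnit_nat (p := p) this
    apply u12.mul_left_cancel
    have us : s * s = 1 := by rw [← pow_two]; exact hs2
    -- (a) 12 s p x0 F3 = p F2 Fj
    have a1 : 12 * s * p * x0 * F3 = p * F2 * Fj := by
      rw [← c2, hx0]
      linear_combination (-4 * x0 * F3) * p9
    -- (c)
    have a2 : p * x0 * (12 * s) = -((-1) ^ j * p * F2 * (Fj : RR p) ^ 2) := by
      linear_combination (-(-1 : RR p) ^ j * Fj) * a1 + 12 * s * x0 * b1
    have hm : ((-1 : RR p)) ^ (j + 1) = -(-1) ^ j := by rw [pow_succ]; ring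
    rw [hm, hx0]
    have a3 : p * x0 * (12 * s) * C = -((-1) ^ j * 8 * p) := by
      linear_combination C * a2 - (-1) ^ j * F2 * d2 - 8 * (-1) ^ j * b2
    linear_combination s * a3 - 12 * p * x0 * C * us
  -- conclusion
  have hCp : ¬ p ∣ 3 * C := by
    intro h
    rcases (hp.out.dvd_mul).1 h with h | h
    · have := Nat.le_of_dvd (by norm_num) h; omega
    · have h5 : C ∣ (2 * (j + 1)).factorial := by
        have := Nat.choose_mul_factorial_mul_factorial (show j + 1 ≤ 2 * (j + 1) by omega)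
        rw [← this, mul_assoc]
        exact Dvd.intro _ rfl
      have := (hp.out.dvd_factorial).1 (h.trans h5)
      omega
  refine ⟨X, hA, ?_⟩
  have r1 : Red p ((legendreSym p 6 : ℚ) * (2 * p)) (((legendreSym p 6 : ℤ) : RR p) * (2 * p)) := by
    have := (Red.int (p := p) (legendreSym p 6)).mul ((Red.nat (p := p) 2).mul (Red.nat (p := p) p))
    push_cast at this
    exact this
  have r2 := r1.div_nat hCp (r' := X) (by push_cast; rw [main, s6])
  have e : (legendreSym p 6 : ℚ) * (2 * p / (3 * (C : ℚ))) = (legendreSym p 6 : ℚ) * (2 * p) / ((3 * C : ℕ) : ℚ) := by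
    push_cast; ring
  rw [e]; exact r2

end

end Pool.Agent.Helper9.SC
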