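import Mathlib
import Pool.Agent.Helper9.SC.CDE
import Pool.Agent.Helper9.SC.ThreeMod
import Pool.Agent.Helper9.SC.OneMod

/-!
Final assembly.
-/

open Finset

namespace Pool.Agent.Helper9.SC

section

variable {p : ℕ} [hp : Fact p.Prime]

lemma not_dvd_x {x y : ℤ} (hx : x % 4 = 1) (hxy : (p : ℤ) = x ^ 2 + y ^ 2) : ¬ (p : ℤ) ∣ x := by
  rintro ⟨c, hc⟩
  have hx0 : x ≠ 0 := by intro h; rw [h] at hx; norm_num at hx
  have hc0 : c ≠ 0 := by intro h; rw [h, mul_zero] at hc; exact hx0 hc
  have hp1 : (1 : ℤ) < p := by exact_mod_cast hp.out.one_lt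
  have hc1 : 1 ≤ c ^ 2 := by
    have : 0 < c ^ 2 := by positivity
    omega
  have h1 : (p : ℤ) ^ 2 ≤ x ^ 2 := by
    rw [hc, mul_pow]
    nlinarith [sq_nonneg (p : ℤ)]
  nlinarith [sq_nonneg y]

lemma main_one {n : ℕ} (hn : p = 4 * n + 1) {x y : ℤ} (hx : x % 4 = 1) (hy : Even y)
    (hxy : (p : ℤ) = x ^ 2 + y ^ 2) :
    (∃ r : RR p, Red p (A p) r ∧ Red p ((legendreSym p 6 : ℚ) * (2 * x - p / (2 * x))) r) ∧
    (∃ r : RR p, Red p (B p) r ∧ Red p ((legendreSym p 6 : ℚ) * x) r) := by
  have hp1 := hp.out.one_lt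
  have hn1 : 1 ≤ n := by
    by_contra h
    have : n = 0 := by omega
    rw [this] at hn; omega
  have h3 : 3 < p := by omega
  have hpp := p_sq (p := p)
  have h4 := four_pow hn h3
  have u2n : ¬ p ∣ 2 := not_dvd_of_lt (k := 2) (by norm_num) (by omega)
  have u2 : IsUnit (2 : RR p) := by
    have := isUnit_nat (p := p) u2n
    simpa using this
  obtain ⟨i2, hi2⟩ := u2.exists_left_inv
  set η := Hr p (2 * n) - Hr p n with hη
  have h16 : (16 : RR p) ^ n = 1 + p * η := by
    have e : (16 : RR p) ^ n = ((-4) ^ n) ^ 2 := by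
      rw [← pow_mul, mul_comm n 2, pow_mul]; norm_num
    have h5 : 4 * (16 : RR p) ^ n = 4 * (1 + p * η) := by
      rw [e]
      linear_combination (2 * (-4 : RR p) ^ n + 2 + p * η) * h4 + η ^ 2 * hpp
    apply u2.mul_left_cancel
    apply u2.mul_left_cancel
    linear_combination h5
  obtain ⟨X, μ, hA, hB, hX, hμ⟩ := one_mod hn hn1 h16
  have hJm := J_mod hn h3
  have hJr := J_rep hn h3 hx hy hxy
  rw [hJr] at hJm
  push_cast at hJm
  have s2 := leg2_one (p := p) hn
  have s6 : ((legendreSym p 6 : ℤ) : RR p) = (-1) ^ n * ((legendreSym p 3 : ℤ) : RR p) := by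
    rw [show (6 : ℤ) = 2 * 3 by norm_num, legendreSym.mul, s2]
    push_cast; rfl
  set C := (2 * n).choose n with hC
  set m : RR p := (-1) ^ n with hm
  have hm2 : m * m = 1 := by rw [hm, ← mul_pow]; norm_num
  set s : RR p := ((legendreSym p 3 : ℤ) : RR p) with hs
  have hCu : IsUnit (C : RR p) := by
    apply isUnit_nat
    intro h
    have h5 : C ∣ (2 * n).factorial := by
      have := Nat.choose_mul_factorial_mul_factorial (show n ≤ 2 * n by omega)
      rw [← this, mul_assoc]
      exact Dvd.intro _ rfl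
    have := (hp.out.dvd_factorial).1 (h.trans h5)
    omega
  set κ : RR p := C * (2 - (-4) ^ n) with hκ
  -- 2 x C = C κ + p
  have hx1 : 2 * (x : RR p) * C = C * κ + p := by
    linear_combination (-m) * hJm + (C ^ 2 * (2 - (-4 : RR p) ^ n) + p - 2 * x * C) * hm2
  -- X = m s κ
  have hXκ : X = m * s * κ := by
    apply u2.mul_left_cancel
    linear_combination hX + (m * s * C) * h4
  -- X + μ = m s 2 x
  have hXμ : X + μ = m * s * (2 * x) := by
    apply hCu.mul_left_cancel
    linear_combination (C : RR p) * hXκ + hμ - m * s * hx1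
  have hxn := not_dvd_x (p := p) hx hxy
  have hPp : Prime (p : ℤ) := Nat.prime_iff_prime_int.1 hp.out
  have h2x : ¬ (p : ℤ) ∣ 2 * x := by
    intro h
    rcases hPp.dvd_or_dvd h with h | h
    · exact u2n (by exact_mod_cast h)
    · exact hxn h
  obtain ⟨i, hi⟩ := (isUnit_int (p := p) h2x).exists_left_inv
  push_cast at hi
  constructor
  · refine ⟨X, hA, ?_⟩
    -- p i = 2 x - κ
    have hpi : p * i = 2 * x - κ := by
      have h5 : (p : RR p) * C = p * (2 * x) := by
        -- p κ = p C and C * (p 2x) = C (p κ)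
        have h6 : (p : RR p) * κ = p * C := by
          apply u2.mul_left_cancel
          rw [hκ]
          linear_combination (-(p : RR p) * C) * h4 - (C * η) * hpp
        apply hCu.mul_left_cancel
        linear_combination (-(p : RR p)) * hx1 - C * h6 - hpp
      apply hCu.mul_left_cancel
      linear_combination i * h5 + (p : RR p) * hi - hx1
    have r1 : Red p ((p : ℚ) / ((2 * x : ℤ) : ℚ)) (p * i) := by
      apply (Red.nat (p := p) p).div_int h2x
      push_cast
      linear_combination (p : RR p) * hi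
    have r2 : Red p ((legendreSym p 6 : ℚ) * (((2 * x : ℤ) : ℚ) - (p : ℚ) / ((2 * x : ℤ) : ℚ)))
        (((legendreSym p 6 : ℤ) : RR p) * (((2 * x : ℤ) : RR p) - p * i)) :=
      (Red.int (p := p) (legendreSym p 6)).mul ((Red.int (p := p) (2 * x)).sub r1)
    have e : ((legendreSym p 6 : ℤ) : RR p) * (((2 * x : ℤ) : RR p) - p * i) = X := by
      rw [s6, hXκ]; push_cast
      linear_combination (-m * s) * hpi
    rw [e] at r2
    push_cast at r2
    exact r2
  · refine ⟨m * s * x, ?_, ?_⟩
    · have h5 := hB.div_nat u2n (r' := (m * s * (x : RR p) : RR p)) (by rw [hXμ]; push_cast; ring)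
      have e : 2 * B p / ((2 : ℕ) : ℚ) = B p := by push_cast; ring
      rw [e] at h5; exact h5
    · have := (Red.int (p := p) (legendreSym p 6)).mul (Red.int (p := p) x)
      rw [s6] at this
      exact this

end

end Pool.Agent.Helper9.SC
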